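import Pool.Agent.Helper77K9.BC.Stm

/-!
Project BC: the capacity theorem in Dobrushin domains and the bound for near-touches, from the
steps BOX, SHF, LW, NTA, NTB, NTC.
-/

set_option autoImplicit false

namespace Pool.Agent.Helper77K9.BC

open H974 H973 H934E Finset
open H731C (VE)
open TH868.CT (NX WX Hit kern en)

theorem disc (hB : S_BOX) (hS : S_SHF) (hL : S_LW) : S_DISC := by
  obtain ⟨c, hc, h1⟩ := TH868.CT.cap_low
  obtain ⟨C, hC, h2⟩ := TH868.CT.cap_up
  obtain ⟨C', hC', h3⟩ := hB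
  refine ⟨c, 4 * C' * C, hc, by positivity, fun M T A hD S hS1 => ?_⟩
  rcases S.eq_empty_or_nonempty with rfl | hne
  · constructor
    · intro v _ h
      simp at h
    · intro h
      exfalso
      have : Q (ES T) (Tch A (∅ : Finset ℤ)) = 0 := by
        have e : Q (ES T) (Tch A (∅ : Finset ℤ)) ≤ Q (ES T) (fun _ => False) := by
          apply Q_mono
          rintro F _ ⟨x, hx, _⟩
          simp at hx
        have e2 : Q (ES T) (fun _ => False) = 0 := by
          unfold Q Pr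
          rw [Ex_congr (g := fun _ => (0 : ℝ)) (fun F _ => ind_not_of (fun h => h)), Ex_const]
        have := Q_nonneg (ES T) (Tch A (∅ : Finset ℤ))
        linarith
      linarith
  obtain ⟨x0, hx0⟩ := hne
  have hM40 : 40 ≤ M := by have := hS1 x0 hx0; omega
  have hlow := hL M T A (by omega) hD S (fun x hx => by have := hS1 x hx; omega)
  constructor
  · intro v hv hv1
    exact (h1 S M hS1 v hv hv1).trans hlow
  · intro hpos
    set r : ℤ := (M - 1) / 3 with hr
    have hr1 : 3 * r ≤ M - 1 := by omega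
    have hr2 : M - 1 < 3 * r + 3 := by omega
    have hSr : ∀ x ∈ S, 1 ≤ x ∧ x ≤ r := fun x hx => by have := hS1 x hx; omega
    have u1 := h3 M T A hD S r (by omega) (by omega) hSr
    have u2 := hS S (3 * r) M (by omega) (by omega) (fun x hx => by have := hSr x hx; omega)
    have u3 : Q (ES T) (Tch A S) ≤ 4 * C' * Q (VE (-M) M 0 M) (Hit S) := by
      calc Q (ES T) (Tch A S) ≤ C' * Q (RE (-(3 * r)) (3 * r) 0 (3 * r)) (Hit S) := u1
        _ ≤ C' * (4 * Q (VE (-M) M 0 M) (Hit S)) := mul_le_mul_of_nonneg_left u2 hC'.le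
        _ = _ := by ring
    have hpos2 : 0 < Q (VE (-M) M 0 M) (Hit S) := by
      by_contra hcon
      push Not at hcon
      have : 4 * C' * Q (VE (-M) M 0 M) (Hit S) ≤ 0 :=
        mul_nonpos_of_nonneg_of_nonpos (by positivity) hcon
      linarith
    obtain ⟨v, hv0, hv1, hv2⟩ := h2 S M hS1 hpos2
    refine ⟨v, hv0, hv1, u3.trans ?_⟩
    calc 4 * C' * Q (VE (-M) M 0 M) (Hit S) ≤ 4 * C' * (C / en S v) :=
          mul_le_mul_of_nonneg_left hv2 (by positivity)
      _ = 4 * C' * C / en S v := by ring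

theorem nt (hA : S_NTA) (hB : S_NTB) (hC : S_NTC) : S_NT := by
  obtain ⟨C, hC0, hC⟩ := hC
  refine ⟨2 * C, by positivity, fun T A k r ρ h1 h2 h3 hF => ?_⟩
  have hρ : (0 : ℝ) < ρ := by exact_mod_cast (by omega : (0 : ℤ) < ρ)
  have hr : (0 : ℝ) ≤ r := by exact_mod_cast (by omega : (0 : ℤ) ≤ r)
  have a1 := hA T A k r ρ h1 h2 h3 hF
  have a2 := hC k r ρ h1 h2
  have e : ∀ n : ℤ, 0 ≤ n → ∑ j ∈ Finset.Icc 1 n, Q (Wd k r ρ j) (EJ k r ρ j) =
      n * Q (Wd k r ρ 1) (EJ k r ρ 1) := by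
    intro n hn
    rw [Finset.sum_congr rfl (fun j _ => hB k r ρ j), Finset.sum_const, nsmul_eq_mul]
    congr 1
    rw [Int.card_Icc]
    have : ((n + 1 - 1).toNat : ℤ) = n := by rw [Int.toNat_of_nonneg (by omega)]; ring
    exact_mod_cast this
  rw [e _ (by omega)] at a1 a2
  have hp : Q (Wd k r ρ 1) (EJ k r ρ 1) ≤ C / ρ := by
    rw [le_div_iff₀ hρ]
    linarith
  refine a1.trans ?_
  push_cast
  calc 2 * (r : ℝ) * Q (Wd k r ρ 1) (EJ k r ρ 1) ≤ 2 * r * (C / ρ) :=
        mul_le_mul_of_nonneg_left hp (by positivity)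
    _ = 2 * C * (r / ρ) := by ring

end Pool.Agent.Helper77K9.BC
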