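import Pool.Agent.Helper77K9.BC.Fin

/-!
Project BC: the essential supremum of the dimension of the set of hit points.
-/

set_option autoImplicit false

namespace Pool.Agent.Helper77K9.BC

open H934E Finset MeasureTheory TopologicalSpace Filter Topology
open scoped ENNReal NNReal

/-- [DL2] Dimension of the set of hit points, lower bound with positive probability. -/
def S_DL2 : Prop := ∀ (R : Rect) (δ : ℕ → ℝ) (hδ : ∀ i, 0 < δ i),
  Tendsto δ atTop (𝓝 0) → ∀ μ : ProbabilityMeasure (NonemptyCompacts ℂ),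
    Tendsto (fun i => R.law (hδ i)) atTop (𝓝 μ) → ∀ (S : Set ℝ) (a s : ℝ), IsCompact S → 0 < a →
    S ⊆ Set.Icc a (R.L0 / 100) → 0 < s → ∀ ν : Measure ℝ, IsProbabilityMeasure ν → ν Sᶜ = 0 →
    ∫⁻ x, ∫⁻ y, (edist x y) ^ (-(1 / 3 + s) : ℝ) ∂ν ∂ν ≠ ∞ →
      ∃ G : Set (NonemptyCompacts ℂ), MeasurableSet G ∧
        0 < (μ : Measure (NonemptyCompacts ℂ)) G ∧
        ∀ K ∈ G, ENNReal.ofReal s ≤ dimH (touch K ∩ S)

/-- Positive probability of a large set of hit points, for compact sets of large dimension. -/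
theorem dim_pos (h : S_DL2) (R : Rect) (δ : ℕ → ℝ) (hδ : ∀ i, 0 < δ i)
    (hlim : Tendsto δ atTop (𝓝 0)) (μ : ProbabilityMeasure (NonemptyCompacts ℂ))
    (hμ : Tendsto (fun i => R.law (hδ i)) atTop (𝓝 μ)) (S : Set ℝ) (hS : IsCompact S)
    (hSb : S ⊆ Set.Ioc 0 (R.L0 / 100)) {t : ℝ} (ht : 0 < t)
    (hd : ENNReal.ofReal (t + 1 / 3) < dimH S) :
    0 < (μ : Measure (NonemptyCompacts ℂ)) {K | ENNReal.ofReal t ≤ dimH (touch K ∩ S)} := by
  obtain ⟨a, ha, hSa⟩ := exists_low hS hSb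
  obtain ⟨s, hs0, hs1, hs2⟩ := ENNReal.lt_iff_exists_real_btwn.mp hd
  have hlt : t + 1 / 3 < s := (ENNReal.ofReal_lt_ofReal_iff_of_nonneg (by linarith)).mp hs1
  obtain ⟨ν, hν, hν0, C, hC, hb⟩ := frostman_real hS hs0 hs2
  have he := TH966.HD.energy_frostman (ν := ν) (β := 1 / 3 + t) hC (by linarith)
    (by linarith : 1 / 3 + t < s) hb
  obtain ⟨G, _, hG0, hG⟩ := h R δ hδ hlim μ hμ S a t hS ha hSa ht ν hν hν0 he
  exact hG0.trans_le (measure_mono fun K hK => hG K hK)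

/-- The essential supremum of the dimension of the set of hit points. -/
theorem ess_dim (h1 : S_DU) (h : S_DL2) (R : Rect) (δ : ℕ → ℝ) (hδ : ∀ i, 0 < δ i)
    (hlim : Tendsto δ atTop (𝓝 0)) (μ : ProbabilityMeasure (NonemptyCompacts ℂ))
    (hμ : Tendsto (fun i => R.law (hδ i)) atTop (𝓝 μ)) (S : Set ℝ) (hS : IsSigmaCompact S)
    (hSb : S ⊆ Set.Ioc 0 (R.L0 / 100)) :
    essSup (fun K : NonemptyCompacts ℂ => dimH (touch K ∩ S))
      (μ : Measure (NonemptyCompacts ℂ)) = dimH S - 1 / 3 := by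
  have hL := R.L0_pos
  apply le_antisymm
  · refine essSup_le_of_ae_le _ ?_
    filter_upwards [dim_upper h1 R δ hδ hlim μ hμ S
      (hSb.trans (Set.Ioc_subset_Ioc_right (by linarith)))] with p hp
    exact hp.1
  · by_contra hcon
    rw [not_le] at hcon
    obtain ⟨t, ht0, ht1, ht2⟩ := ENNReal.lt_iff_exists_real_btwn.mp hcon
    have htp : 0 < t := by
      by_contra h0
      have h5 : t = 0 := le_antisymm (not_lt.mp h0) ht0
      rw [h5, ENNReal.ofReal_zero] at ht1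
      exact absurd ht1 not_lt_zero
    have ht3 : ENNReal.ofReal (t + 1 / 3) < dimH S := by
      rw [ENNReal.ofReal_add ht0 (by norm_num)]
      have e14 : (1 / 3 : ℝ≥0∞) = ENNReal.ofReal (1 / 3) := by
        rw [ENNReal.ofReal_div_of_pos (by norm_num), ENNReal.ofReal_one,
          show ENNReal.ofReal 3 = 3 by simp]
      rw [← e14]
      exact lt_tsub_iff_right.mp ht2
    obtain ⟨Kn, hKc, hKS⟩ := hS
    rw [← hKS, dimH_iUnion] at ht3
    obtain ⟨n, hn⟩ := lt_iSup_iff.mp ht3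
    have hsub : Kn n ⊆ S := by
      rw [← hKS]
      exact Set.subset_iUnion Kn n
    have h5 := dim_pos h R δ hδ hlim μ hμ (Kn n) (hKc n) (hsub.trans hSb) htp hn
    have h6 := ae_lt_of_essSup_lt ht1
    rw [ae_iff] at h6
    have h7 : (μ : Measure (NonemptyCompacts ℂ))
        {p | ENNReal.ofReal t ≤ dimH (touch p ∩ Kn n)} ≤ 0 := by
      rw [← h6]
      apply measure_mono
      intro p hp
      simp only [Set.mem_ofPred_eq, not_lt] at hp ⊢
      exact hp.trans (dimH_mono (Set.inter_subset_inter_right _ hsub))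
    exact absurd h5 (not_lt.mpr h7)

end Pool.Agent.Helper77K9.BC
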