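import Pool.Agent.Helper77K9.BC.Ess
import Pool.Agent.Helper92K9.BC.Mes

/-!
Project BC: extension from compact sets to σ-compact sets, and to all sets for the lower bound.
-/

set_option autoImplicit false

namespace Pool.Agent.Helper77K9.BC

open H934E Finset MeasureTheory TopologicalSpace Filter Topology
open scoped ENNReal NNReal

theorem capR_mono {S T : Set ℝ} (h : S ⊆ T) : capR S ≤ capR T := by
  unfold capR
  refine iSup_mono fun ν => iSup_mono fun _ => ?_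
  refine iSup_le fun h0 => ?_
  exact le_iSup_of_le (measure_mono_null (Set.compl_subset_compl.mpr h) h0) le_rfl

theorem HS_mono {S T : Set ℝ} (h : S ⊆ T) : HS S ⊆ HS T := by
  rintro K ⟨y, hy, hK⟩
  exact ⟨y, h hy, hK⟩

theorem HS_iUnion (S : ℕ → Set ℝ) : HS (⋃ n, S n) = ⋃ n, HS (S n) := by
  ext K
  simp only [HS, Set.mem_iUnion, Set.mem_ofPred_eq]
  constructor
  · rintro ⟨y, ⟨n, hn⟩, hK⟩; exact ⟨n, y, hn, hK⟩
  · rintro ⟨n, y, hn, hK⟩; exact ⟨y, ⟨n, hn⟩, hK⟩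

/-- The energy of a normalised restriction. -/
theorem energy_restrict (ν : Measure ℝ) [SFinite ν] (K : Set ℝ) (t : ℝ≥0∞) :
    energy (t • ν.restrict K) ≤ t * t * energy ν := by
  unfold energy
  rw [lintegral_smul_measure]
  have h1 : ∀ x, ∫⁻ y, kerR x y ∂(t • ν.restrict K) = t * ∫⁻ y, kerR x y ∂(ν.restrict K) := by
    intro x
    rw [lintegral_smul_measure, smul_eq_mul]
  simp only [h1, smul_eq_mul]
  have h2 : ∫⁻ x, t * ∫⁻ y, kerR x y ∂(ν.restrict K) ∂(ν.restrict K) ≤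
      ∫⁻ x, t * ∫⁻ y, kerR x y ∂ν ∂ν := by
    refine (lintegral_mono' Measure.restrict_le_self fun x => ?_)
    gcongr
    exact Measure.restrict_le_self
  have hm : Measurable fun x => ∫⁻ y, kerR x y ∂ν :=
    Measurable.lintegral_prod_right' (f := fun p : ℝ × ℝ => kerR p.1 p.2)
      Pool.Agent.Helper92K9.BC.meas_kerR
  calc t * ∫⁻ x, t * ∫⁻ y, kerR x y ∂(ν.restrict K) ∂(ν.restrict K)
      ≤ t * ∫⁻ x, t * ∫⁻ y, kerR x y ∂ν ∂ν := by gcongr
    _ = t * t * ∫⁻ x, ∫⁻ y, kerR x y ∂ν ∂ν := by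
        rw [lintegral_const_mul _ hm, mul_assoc]

theorem one_le_kerR {x y : ℝ} (hx : 0 < x) (hy : 0 < y) : 1 ≤ kerR x y := by
  unfold kerR
  refine ENNReal.one_le_rpow ?_ (by norm_num)
  have hm : 0 < max x y := lt_max_of_lt_left hx
  rw [ENNReal.le_div_iff_mul_le (Or.inr (ENNReal.ofReal_pos.mpr hm).ne') (Or.inr ENNReal.ofReal_ne_top),
    one_mul]
  apply ENNReal.ofReal_le_ofReal
  rw [abs_sub_le_iff]
  constructor
  · have := le_max_left x y; linarith
  · have := le_max_right x y; linarith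

theorem one_le_energy (ν : Measure ℝ) [IsProbabilityMeasure ν] {S : Set ℝ} {b : ℝ}
    (hS : S ⊆ Set.Ioc 0 b) (h0 : ν Sᶜ = 0) : 1 ≤ energy ν := by
  have hae : ∀ᵐ x ∂ν, 0 < x := by
    rw [ae_iff]
    refine measure_mono_null ?_ h0
    intro x hx hxS
    exact hx (hS hxS).1
  unfold energy
  calc (1 : ℝ≥0∞) = ∫⁻ _, 1 ∂ν := by simp
    _ ≤ ∫⁻ x, ∫⁻ y, kerR x y ∂ν ∂ν := by
        apply lintegral_mono_ae
        filter_upwards [hae] with x hx
        calc (1 : ℝ≥0∞) = ∫⁻ _, 1 ∂ν := by simp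
          _ ≤ ∫⁻ y, kerR x y ∂ν := by
              apply lintegral_mono_ae
              filter_upwards [hae] with y hy
              exact one_le_kerR hx hy

/-- Capacity from inside. -/
theorem low_all (μ : Measure (NonemptyCompacts ℂ)) (c : ℝ≥0∞) (hcc : c ≠ ∞) (b : ℝ)
    (h : ∀ S : Set ℝ, IsCompact S → S ⊆ Set.Ioc 0 b → c * capR S ≤ μ (HS S))
    (S : Set ℝ) (hS : S ⊆ Set.Ioc 0 b) : c * capR S ≤ μ (HS S) := by
  unfold capR
  simp only [ENNReal.mul_iSup]
  refine iSup_le fun ν => iSup_le fun hν => iSup_le fun hν0 => ?_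
  -- a measurable set inside `S` of full measure
  obtain ⟨T, hTm, hTS, hT⟩ : ∃ T : Set ℝ, MeasurableSet T ∧ T ⊆ S ∧ ν T = 1 := by
    refine ⟨(toMeasurable ν Sᶜ)ᶜ, (measurableSet_toMeasurable _ _).compl, ?_, ?_⟩
    · rw [← compl_compl S]
      exact Set.compl_subset_compl.mpr (by rw [compl_compl]; exact subset_toMeasurable ν Sᶜ)
    · rw [prob_compl_eq_one_iff (measurableSet_toMeasurable _ _), measure_toMeasurable, hν0]
  -- compact subsets
  have key : ∀ n : ℕ, c * ((1 - 1 / ((n : ℝ≥0∞) + 2)) * (1 - 1 / ((n : ℝ≥0∞) + 2)) *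
      (energy ν)⁻¹) ≤ μ (HS S) := by
    intro n
    obtain ⟨K, hKT, hK, hKν⟩ : ∃ K ⊆ T, IsCompact K ∧ ν T < ν K + 1 / ((n : ℝ≥0∞) + 2) :=
      hTm.exists_isCompact_lt_add (measure_ne_top ν T) (by simp)
    have hK1 : 1 - 1 / ((n : ℝ≥0∞) + 2) ≤ ν K := by
      rw [tsub_le_iff_right]
      rw [hT] at hKν
      exact hKν.le
    have hlt : (1 : ℝ≥0∞) / ((n : ℝ≥0∞) + 2) < 1 := by
      rw [ENNReal.div_lt_iff (by simp) (by simp), one_mul]
      calc (1 : ℝ≥0∞) < 2 := by norm_num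
        _ ≤ (n : ℝ≥0∞) + 2 := le_add_self
    have hK0 : ν K ≠ 0 := by
      intro h0
      rw [h0, zero_add, hT] at hKν
      exact absurd hKν (not_lt.mpr hlt.le)
    have hKt : ν K ≠ ∞ := measure_ne_top ν K
    -- the normalised restriction
    have hp : IsProbabilityMeasure ((ν K)⁻¹ • ν.restrict K) := by
      constructor
      rw [Measure.smul_apply, Measure.restrict_apply MeasurableSet.univ, Set.univ_inter,
        smul_eq_mul, ENNReal.inv_mul_cancel hK0 hKt]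
    have hc0 : ((ν K)⁻¹ • ν.restrict K) Kᶜ = 0 := by
      rw [Measure.smul_apply, Measure.restrict_apply hK.measurableSet.compl,
        Set.compl_inter_self, measure_empty, smul_zero]
    have h1 := h K hK ((hKT.trans hTS).trans hS)
    refine le_trans ?_ (h1.trans (measure_mono (HS_mono (hKT.trans hTS))))
    gcongr
    unfold capR
    refine le_iSup_of_le ((ν K)⁻¹ • ν.restrict K) (le_iSup_of_le hp (le_iSup_of_le hc0 ?_))
    have h2 := energy_restrict ν K ((ν K)⁻¹)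
    calc (1 - 1 / ((n : ℝ≥0∞) + 2)) * (1 - 1 / ((n : ℝ≥0∞) + 2)) * (energy ν)⁻¹
        ≤ ν K * ν K * (energy ν)⁻¹ := by gcongr
      _ = ((ν K)⁻¹ * (ν K)⁻¹ * energy ν)⁻¹ := by
          rw [ENNReal.mul_inv, ENNReal.mul_inv, inv_inv]
          · left; exact ENNReal.inv_ne_zero.mpr hKt
          · left; exact ENNReal.inv_ne_top.mpr hK0
          · left
            exact mul_ne_zero (ENNReal.inv_ne_zero.mpr hKt) (ENNReal.inv_ne_zero.mpr hKt)
          · left
            exact ENNReal.mul_ne_top (ENNReal.inv_ne_top.mpr hK0) (ENNReal.inv_ne_top.mpr hK0)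
      _ ≤ (energy ((ν K)⁻¹ • ν.restrict K))⁻¹ := ENNReal.inv_le_inv.mpr h2
  have hl : Tendsto (fun n : ℕ => (1 : ℝ≥0∞) - 1 / ((n : ℝ≥0∞) + 2)) atTop (𝓝 1) := by
    have h1 : Tendsto (fun n : ℕ => (1 : ℝ≥0∞) / ((n : ℝ≥0∞) + 2)) atTop (𝓝 0) := by
      have h2 : Tendsto (fun n : ℕ => ((n + 2 : ℕ) : ℝ≥0∞)⁻¹) atTop (𝓝 0) :=
        (tendsto_add_atTop_iff_nat 2).mpr ENNReal.tendsto_inv_nat_nhds_zero
      refine h2.congr fun n => ?_
      rw [one_div]
      push_cast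
      rfl
    have h3 := ENNReal.Tendsto.sub (tendsto_const_nhds (x := (1 : ℝ≥0∞))) h1
      (Or.inl ENNReal.one_ne_top)
    rwa [tsub_zero] at h3
  have he : energy ν ≠ 0 := by
    have hone := one_le_energy ν hS hν0
    intro he
    rw [he] at hone
    exact absurd hone (by simp)
  have hfin : (energy ν)⁻¹ ≠ ∞ := ENNReal.inv_ne_top.mpr he
  have h4 : Tendsto (fun n : ℕ => c * (((1 : ℝ≥0∞) - 1 / ((n : ℝ≥0∞) + 2)) *
      (1 - 1 / ((n : ℝ≥0∞) + 2)) * (energy ν)⁻¹)) atTop (𝓝 (c * (1 * 1 * (energy ν)⁻¹))) := by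
    refine ENNReal.Tendsto.const_mul ?_ (Or.inr hcc)
    refine ENNReal.Tendsto.mul_const ?_ (Or.inr hfin)
    exact ENNReal.Tendsto.mul hl (Or.inl one_ne_zero) hl (Or.inl one_ne_zero)
  rw [one_mul, one_mul] at h4
  exact le_of_tendsto' h4 key

/-- The upper bound for σ-compact sets. -/
theorem up_sigma (μ : Measure (NonemptyCompacts ℂ)) (C : ℝ≥0∞) (b : ℝ)
    (h : ∀ S : Set ℝ, IsCompact S → S ⊆ Set.Ioc 0 b → μ (HS S) ≤ C * capR S)
    (S : Set ℝ) (hS : IsSigmaCompact S) (hSb : S ⊆ Set.Ioc 0 b) : μ (HS S) ≤ C * capR S := by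
  obtain ⟨Kn, hKc, hKS⟩ := hS
  have e1 : S = ⋃ n, Set.accumulate Kn n := by rw [Set.iUnion_accumulate, hKS]
  have hc : ∀ n, IsCompact (Set.accumulate Kn n) := fun n =>
    (Set.finite_le_nat n).isCompact_biUnion fun i _ => hKc i
  have hsub : ∀ n, Set.accumulate Kn n ⊆ S := by
    intro n
    rw [e1]
    exact Set.subset_iUnion (fun m => Set.accumulate Kn m) n
  have hmono : Monotone fun n => HS (Set.accumulate Kn n) := fun m n hmn =>
    HS_mono (Set.monotone_accumulate hmn)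
  have h1 : Tendsto (fun n => μ (HS (Set.accumulate Kn n))) atTop (𝓝 (μ (HS S))) := by
    have := tendsto_measure_iUnion_atTop (μ := μ) hmono
    rwa [← HS_iUnion, ← e1] at this
  refine le_of_tendsto' h1 fun n => ?_
  refine (h _ (hc n) ((hsub n).trans hSb)).trans ?_
  gcongr
  exact capR_mono (hsub n)

end Pool.Agent.Helper77K9.BC
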