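import Pool.Agent.Helper77K9.BC.Stm
import Pool.Agent.TH966.HD.Energy

/-!
Project BC: assembly.
-/

set_option autoImplicit false

namespace Pool.Agent.Helper77K9.BC

open H934E Finset MeasureTheory TopologicalSpace Filter Topology
open scoped ENNReal NNReal

theorem exists_low {S : Set ℝ} {b : ℝ} (hS : IsCompact S) (h : S ⊆ Set.Ioc 0 b) :
    ∃ a, 0 < a ∧ S ⊆ Set.Icc a b := by
  rcases S.eq_empty_or_nonempty with rfl | hne
  · exact ⟨1, one_pos, Set.empty_subset _⟩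
  · obtain ⟨a, ha, hm⟩ := hS.exists_isLeast hne
    exact ⟨a, (h ha).1, fun x hx => ⟨hm hx, (h hx).2⟩⟩

/-- The two bounds in terms of the capacity. -/
theorem two_sided (h1 : S_LOWER) (h2 : S_UPPER) : ∃ c C : ℝ, 0 < c ∧ 0 < C ∧
    ∀ (R : Rect) (δ : ℕ → ℝ) (hδ : ∀ i, 0 < δ i), Tendsto δ atTop (𝓝 0) →
    ∀ μ : ProbabilityMeasure (NonemptyCompacts ℂ),
      Tendsto (fun i => R.law (hδ i)) atTop (𝓝 μ) → ∀ S : Set ℝ, IsCompact S →
      S ⊆ Set.Ioc 0 (R.L0 / 100) →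
      ENNReal.ofReal c * capR S ≤ (μ : Measure (NonemptyCompacts ℂ)) (HS S) ∧
      (μ : Measure (NonemptyCompacts ℂ)) (HS S) ≤ ENNReal.ofReal C * capR S := by
  obtain ⟨c, hc, hl⟩ := h1
  obtain ⟨C, hC, hu⟩ := h2
  refine ⟨c, C, hc, hC, fun R δ hδ hlim μ hμ S hS hSb => ?_⟩
  obtain ⟨a, ha, hSa⟩ := exists_low hS hSb
  constructor
  · unfold capR
    simp only [ENNReal.mul_iSup]
    refine iSup_le fun ν => iSup_le fun hν => iSup_le fun hν0 => ?_
    by_cases he : energy ν = ∞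
    · rw [he, ENNReal.inv_top, mul_zero]
      exact bot_le
    · exact hl R δ hδ hlim μ hμ S a hS ha hSa ν hν hν0 he
  · rcases eq_or_ne ((μ : Measure (NonemptyCompacts ℂ)) (HS S)) 0 with h0 | h0
    · rw [h0]; exact bot_le
    · obtain ⟨ν, hν, hν0, hle⟩ := hu R δ hδ hlim μ hμ S a hS ha hSa (pos_iff_ne_zero.mpr h0)
      refine hle.trans ?_
      gcongr
      unfold capR
      exact le_iSup_of_le ν (le_iSup_of_le hν (le_iSup_of_le hν0 le_rfl))

/-- Upper bound for the dimension. -/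
theorem dim_upper (h : S_DU) (R : Rect) (δ : ℕ → ℝ) (hδ : ∀ i, 0 < δ i)
    (hlim : Tendsto δ atTop (𝓝 0)) (μ : ProbabilityMeasure (NonemptyCompacts ℂ))
    (hμ : Tendsto (fun i => R.law (hδ i)) atTop (𝓝 μ)) (S : Set ℝ)
    (hS : S ⊆ Set.Ioc 0 (R.L0 / 16)) :
    ∀ᵐ K ∂(μ : Measure (NonemptyCompacts ℂ)), dimH (touch K ∩ S) ≤ dimH S - 1 / 3 ∧
      (μH[(1 / 3 : ℝ)] S = 0 → touch K ∩ S = ∅) := by
  -- sets of zero content
  have h0 : μH[(1 / 3 : ℝ)] S = 0 → ∀ᵐ K ∂(μ : Measure (NonemptyCompacts ℂ)),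
      touch K ∩ S = ∅ := by
    intro hz
    have h1 := h R δ hδ hlim μ hμ S (1 / 3) le_rfl hS hz
    filter_upwards [h1] with K hK
    rw [sub_self] at hK
    rw [Set.eq_empty_iff_forall_notMem]
    intro x hx
    have h2 : μH[(0 : ℝ)] ({x} : Set ℝ) ≤ μH[(0 : ℝ)] (touch K ∩ S) :=
      measure_mono (Set.singleton_subset_iff.mpr hx)
    rw [hK, Measure.hausdorffMeasure_zero_singleton] at h2
    exact absurd h2 (by simp)
  have h13 : (1 / 3 : ℝ≥0∞) = ((1 / 3 : ℝ≥0) : ℝ≥0∞) := by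
    rw [ENNReal.coe_div (by norm_num)]; norm_num
  -- the dimension is finite
  have hfin : dimH S ≠ ∞ := by
    have h1 : dimH S ≤ dimH (Set.univ : Set ℝ) := dimH_mono (Set.subset_univ _)
    rw [Real.dimH_univ] at h1
    exact ne_top_of_le_ne_top ENNReal.one_ne_top h1
  obtain ⟨D, hD⟩ : ∃ D : ℝ≥0, (D : ℝ≥0∞) = dimH S :=
    ⟨(dimH S).toNNReal, ENNReal.coe_toNNReal hfin⟩
  rcases lt_or_ge D (1 / 3) with hlt | hge
  · have hz : μH[(1 / 3 : ℝ)] S = 0 := by
      have := hausdorffMeasure_of_dimH_lt (s := S) (d := 1 / 3) (by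
        rw [← hD]; exact_mod_cast hlt)
      rw [← this]
      norm_num
    filter_upwards [h0 hz] with K hK
    refine ⟨?_, fun _ => hK⟩
    rw [hK, dimH_empty]
    exact bot_le
  · have hn : ∀ n : ℕ, ∀ᵐ K ∂(μ : Measure (NonemptyCompacts ℂ)),
        dimH (touch K ∩ S) ≤ ((D + 1 / ((n : ℝ≥0) + 1) - 1 / 3 : ℝ≥0) : ℝ≥0∞) := by
      intro n
      have hpos : (0 : ℝ≥0) < 1 / ((n : ℝ≥0) + 1) := by positivity
      have hz : μH[((D + 1 / ((n : ℝ≥0) + 1) : ℝ≥0) : ℝ)] S = 0 := by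
        apply hausdorffMeasure_of_dimH_lt
        rw [← hD]
        exact_mod_cast lt_add_of_pos_right D hpos
      have hge' : (1 / 3 : ℝ≥0) ≤ D + 1 / ((n : ℝ≥0) + 1) := hge.trans (le_add_of_nonneg_right hpos.le)
      have hge2 : (1 / 3 : ℝ) ≤ ((D + 1 / ((n : ℝ≥0) + 1) : ℝ≥0) : ℝ) := by
        have : (((1 / 3 : ℝ≥0)) : ℝ) ≤ ((D + 1 / ((n : ℝ≥0) + 1) : ℝ≥0) : ℝ) := by
          exact_mod_cast hge'
        simpa using this
      filter_upwards [h R δ hδ hlim μ hμ S _ hge2 hS hz] with K hK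
      apply dimH_le_of_hausdorffMeasure_ne_top
      have e : (((D + 1 / ((n : ℝ≥0) + 1) - 1 / 3 : ℝ≥0)) : ℝ) =
          ((D + 1 / ((n : ℝ≥0) + 1) : ℝ≥0) : ℝ) - 1 / 3 := by
        rw [NNReal.coe_sub hge']
        norm_num
      rw [e, hK]
      exact ENNReal.zero_ne_top
    have hall := ae_all_iff.mpr hn
    have h0' : ∀ᵐ K ∂(μ : Measure (NonemptyCompacts ℂ)),
        (μH[(1 / 3 : ℝ)] S = 0 → touch K ∩ S = ∅) := by
      by_cases hz : μH[(1 / 3 : ℝ)] S = 0
      · filter_upwards [h0 hz] with K hK _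
        exact hK
      · exact Eventually.of_forall fun K h => absurd h hz
    filter_upwards [hall, h0'] with K hK hK0
    refine ⟨?_, hK0⟩
    rw [← hD, h13, ← ENNReal.coe_sub]
    apply ENNReal.le_of_forall_pos_le_add
    intro ε hε _
    obtain ⟨n, hn⟩ := exists_nat_one_div_lt (show (0 : ℝ) < ε from hε)
    refine (hK n).trans ?_
    rw [← ENNReal.coe_add, ENNReal.coe_le_coe]
    have h5 : (1 / ((n : ℝ≥0) + 1) : ℝ≥0) ≤ ε := by
      rw [← NNReal.coe_le_coe]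
      push_cast
      exact hn.le
    rw [tsub_le_iff_right]
    calc D + 1 / ((n : ℝ≥0) + 1) ≤ (D - 1 / 3 + 1 / 3) + ε := by
          rw [tsub_add_cancel_of_le hge]
          gcongr
      _ = D - 1 / 3 + ε + 1 / 3 := by ring

/-- Frostman's lemma on the real line. -/
theorem frostman_real {S : Set ℝ} (hS : IsCompact S) {s : ℝ} (hs : 0 ≤ s)
    (h : ENNReal.ofReal s < dimH S) : ∃ ν : Measure ℝ, IsProbabilityMeasure ν ∧ ν Sᶜ = 0 ∧
      ∃ C : ℝ, 0 < C ∧ ∀ (x : ℝ) (r : ℝ), 0 < r →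
        ν (Metric.closedBall x r) ≤ ENNReal.ofReal (C * r ^ s) := by
  have hI : IsCompact ((fun x : ℝ => (x : ℂ)) '' S) := hS.image Complex.continuous_ofReal
  have hd : dimH ((fun x : ℝ => (x : ℂ)) '' S) = dimH S := Complex.isometry_ofReal.dimH_image S
  obtain ⟨ν, hν, hν0, C, hC, hb⟩ := TH966.HD.frostman_complex hI hs (by rw [hd]; exact h)
  have hm : Measurable Complex.re := Complex.continuous_re.measurable
  refine ⟨ν.map Complex.re, Measure.isProbabilityMeasure_map hm.aemeasurable, ?_, C, hC, ?_⟩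
  · rw [Measure.map_apply hm hS.isClosed.measurableSet.compl]
    refine measure_mono_null ?_ hν0
    rintro z hz ⟨x, hx, rfl⟩
    exact hz (by simpa using hx)
  · intro x r hr
    rw [Measure.map_apply hm Metric.isClosed_closedBall.measurableSet]
    have h1 : ν (Complex.re ⁻¹' Metric.closedBall x r) ≤
        ν (Metric.closedBall (x : ℂ) r) + ν ((fun x : ℝ => (x : ℂ)) '' S)ᶜ := by
      refine le_trans (measure_mono ?_) (measure_union_le _ _)
      intro z hz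
      by_cases hzS : z ∈ (fun x : ℝ => (x : ℂ)) '' S
      · left
        obtain ⟨y, hy, rfl⟩ := hzS
        rw [Set.mem_preimage, Metric.mem_closedBall] at hz
        rw [Metric.mem_closedBall, Complex.isometry_ofReal.dist_eq]
        simpa using hz
      · exact Or.inr hzS
    rw [hν0, add_zero] at h1
    exact h1.trans (hb x r hr)

end Pool.Agent.Helper77K9.BC
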