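import Pool.Agent.Helper77K9.BC.Stm

/-!
Project BC: the lower bound in the limit.
-/

set_option autoImplicit false

namespace Pool.Agent.Helper77K9.BC

open H974 H973 H934E Finset MeasureTheory TopologicalSpace Filter Topology
open H731C (VE)
open TH868.CT (NX WX Hit kern en)
open scoped ENNReal

/-- The image of a set of reals. -/
def IM (S : Set ℝ) : Set ℂ := (fun x : ℝ => (x : ℂ)) '' S

/-- Closed neighbourhoods of the image. -/
def CN (S : Set ℝ) (n : ℕ) : Set ℂ := Metric.cthickening (1 / ((n : ℝ) + 1)) (IM S)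

theorem IM_compact {S : Set ℝ} (hS : IsCompact S) : IsCompact (IM S) :=
  hS.image Complex.continuous_ofReal

theorem mem_IM_of_CN {S : Set ℝ} (hS : IsCompact S) {z : ℂ} (h : ∀ n, z ∈ CN S n) : z ∈ IM S := by
  have h1 : z ∈ closure (IM S) := by
    rw [Metric.closure_eq_iInter_cthickening' (IM S) (Set.range fun n : ℕ => 1 / ((n : ℝ) + 1)) ?_]
    · rw [Set.mem_iInter₂]
      rintro t ⟨n, rfl⟩
      exact h n
    · intro ε hε
      obtain ⟨n, hn⟩ := exists_nat_one_div_lt hε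
      exact ⟨_, ⟨n, rfl⟩, Set.mem_Ioc.mpr ⟨by positivity, hn.le⟩⟩
  rwa [(IM_compact hS).isClosed.closure_eq] at h1

theorem HS_eq {S : Set ℝ} (hS : IsCompact S) : HS S = ⋂ n : ℕ,
    {K : NonemptyCompacts ℂ | ((K : Set ℂ) ∩ CN S n).Nonempty} := by
  ext K
  simp only [HS, Set.mem_ofPred_eq, Set.mem_iInter]
  constructor
  · rintro ⟨y, hy1, hy2⟩ n
    exact ⟨(y : ℂ), hy2, Metric.self_subset_cthickening _ ⟨y, hy1, rfl⟩⟩
  · intro h
    have hc : ∀ n : ℕ, IsCompact ((K : Set ℂ) ∩ CN S n) :=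
      fun n => K.isCompact.inter_right Metric.isClosed_cthickening
    have hmono : ∀ n : ℕ, (K : Set ℂ) ∩ CN S (n + 1) ⊆ (K : Set ℂ) ∩ CN S n := by
      rintro n z ⟨h1, h2⟩
      exact ⟨h1, Metric.cthickening_mono (Nat.one_div_le_one_div (Nat.le_succ n)) _ h2⟩
    have := IsCompact.nonempty_iInter_of_sequence_nonempty_isCompact_isClosed _ hmono h (hc 0)
      (fun n => (hc n).isClosed)
    obtain ⟨z, hz⟩ := this
    rw [Set.mem_iInter] at hz
    obtain ⟨y, hy, rfl⟩ := mem_IM_of_CN hS (fun n => (hz n).2)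
    exact ⟨y, hy, (hz 0).1⟩

theorem HS_closed {S : Set ℝ} (hS : IsCompact S) : IsClosed (HS S) := by
  rw [HS_eq hS]
  exact isClosed_iInter fun n =>
    NonemptyCompacts.isClosed_inter_nonempty_of_isClosed Metric.isClosed_cthickening

/-- visited lattice points give points of the trace close to the set -/
theorem near_pt (R : Rect) {δ : ℝ} (hδ : 0 < δ) {S : Set ℝ} {x : ℝ} (hx : x ∈ S) {k : ℤ}
    {t : ℝ} (h1 : |δ * k - x| ≤ t) (hk0 : 0 ≤ k) (hk1 : k ≤ R.x1 δ) {F : Finset Edg}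
    (hW : H934E.W (R.wired δ) F (k, 0)) {n : ℕ} (ht : t + δ ≤ 1 / ((n : ℝ) + 1)) :
    ((R.trace hδ F : Set ℂ) ∩ CN S n).Nonempty := by
  have hmem := R.mem_path (δ := δ) (F := F) hk0 hk1 hW
  refine ⟨_, hmem, ?_⟩
  refine Metric.mem_cthickening_of_dist_le _ (x : ℂ) _ _ (Set.mem_image_of_mem _ hx) ?_
  refine le_trans ?_ ht
  rw [Complex.dist_eq]
  have e : (⟨δ * k, δ / 2⟩ : ℂ) - (x : ℂ) = ⟨δ * k - x, δ / 2⟩ := by
    apply Complex.ext <;> simp
  rw [e]
  refine (Complex.norm_le_abs_re_add_abs_im _).trans ?_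
  simp only
  rw [abs_of_pos (show (0 : ℝ) < δ / 2 by positivity)]
  linarith

theorem lower (hD : S_DISC) (hP : S_PUSH) : S_LOWER := by
  obtain ⟨c, C, hc, hC, h⟩ := hD
  refine ⟨c, hc, ?_⟩
  intro R δ hδ hlim μ hμ S a hS ha hSa ν hν hν0 he
  have hL := R.L0_pos
  rw [HS_eq hS]
  have hmono : Antitone (fun n : ℕ =>
      {K : NonemptyCompacts ℂ | ((K : Set ℂ) ∩ CN S n).Nonempty}) := by
    rintro p q hpq K ⟨z, hz1, hz2⟩
    exact ⟨z, hz1, Metric.cthickening_mono (Nat.one_div_le_one_div hpq) _ hz2⟩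
  have hclosed : ∀ n : ℕ, IsClosed
      {K : NonemptyCompacts ℂ | ((K : Set ℂ) ∩ CN S n).Nonempty} :=
    fun n => NonemptyCompacts.isClosed_inter_nonempty_of_isClosed Metric.isClosed_cthickening
  rw [hmono.measure_iInter (fun n => (hclosed n).measurableSet.nullMeasurableSet)
    ⟨0, measure_ne_top _ _⟩]
  apply le_iInf
  intro n
  -- the energy is at least one
  have key : ∀ d : ℝ, 0 < d → d ≤ a → 100 * d ≤ R.L0 → d + d ≤ 1 / ((n : ℝ) + 1) →
      1 ≤ (energy ν).toReal ∧ ∀ hd : 0 < d, c / (energy ν).toReal ≤ Q (R.edges d)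
        (fun F => R.trace hd F ∈
          {K : NonemptyCompacts ℂ | ((K : Set ℂ) ∩ CN S n).Nonempty}) := by
    intro d hd hda hdL hdn
    obtain ⟨T, v, hT, hv0, hv1, hv2⟩ := hP S a (R.L0 / 100) d hd hda hSa ν hν hν0 he
    have hfl : ∀ k ∈ T, (1 ≤ k ∧ 40 * k ≤ ⌊R.L0 / d⌋ - 3) := by
      intro k hk
      obtain ⟨x, hx, rfl⟩ := hT k hk
      have hx' := hSa hx
      have b1 : 1 ≤ x / d := by rw [le_div_iff₀ hd]; linarith [hx'.1]
      have b2 : x / d ≤ R.L0 / d / 100 := by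
        rw [div_div, div_le_div_iff₀ hd (by positivity)]
        have := hx'.2
        nlinarith
      have b3 : (⌊x / d⌋ : ℝ) ≤ x / d := Int.floor_le _
      have b4 : 100 ≤ R.L0 / d := by rw [le_div_iff₀ hd]; linarith
      have b5 : R.L0 / d < (⌊R.L0 / d⌋ : ℝ) + 1 := Int.lt_floor_add_one _
      refine ⟨Int.le_floor.mpr (by exact_mod_cast b1), ?_⟩
      have : ((40 * ⌊x / d⌋ : ℤ) : ℝ) ≤ ((⌊R.L0 / d⌋ - 3 : ℤ) : ℝ) := by push_cast; linarith
      exact_mod_cast this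
    have hen := TH868.CT.en_ge (S := T) (fun k hk => (hfl k hk).1) hv0
    rw [hv1] at hen
    have h1 : 1 ≤ (energy ν).toReal := by linarith
    refine ⟨h1, fun hd' => ?_⟩
    have hdob := R.dob (δ := d) hd (M := ⌊R.L0 / d⌋ - 3) le_rfl
    have h2 := (h _ _ _ hdob T hfl).1 v hv0 hv1
    have h3 : c / (energy ν).toReal ≤ c / en T v := by
      apply div_le_div_of_nonneg_left hc.le _ hv2
      linarith
    refine h3.trans (h2.trans ?_)
    apply Q_mono
    rintro F hF ⟨k, hk, hW⟩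
    have hfk := hfl k hk
    obtain ⟨x, hx, hkx⟩ := hT k hk
    have hk1 : k ≤ R.x1 d := by
      unfold Rect.x1
      have a1 : R.B / d ≤ (⌈R.B / d⌉ : ℝ) := Int.le_ceil _
      have a2 : R.L0 / d ≤ R.B / d := div_le_div_of_nonneg_right R.L0_B hd.le
      have a3 : (⌊R.L0 / d⌋ : ℝ) ≤ R.L0 / d := Int.floor_le _
      have a4 : ((40 * k : ℤ) : ℝ) ≤ ((⌊R.L0 / d⌋ - 3 : ℤ) : ℝ) := by exact_mod_cast hfk.2
      have a5 : (1 : ℝ) ≤ k := by exact_mod_cast hfk.1
      push_cast at a4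
      have : (k : ℝ) ≤ (⌈R.B / d⌉ : ℝ) - 1 := by linarith
      exact_mod_cast this
    refine near_pt R hd' hx (t := d) ?_ (by omega) hk1 hW hdn
    rw [hkx]
    have b1 : (⌊x / d⌋ : ℝ) ≤ x / d := Int.floor_le _
    have b2 : x / d < (⌊x / d⌋ : ℝ) + 1 := Int.lt_floor_add_one _
    have e7 : d * (⌊x / d⌋ : ℝ) - x = d * ((⌊x / d⌋ : ℝ) - x / d) := by field_simp
    rw [e7, abs_mul, abs_of_pos hd]
    have : |(⌊x / d⌋ : ℝ) - x / d| ≤ 1 := by
      rw [abs_le]; constructor <;> linarith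
    calc d * |(⌊x / d⌋ : ℝ) - x / d| ≤ d * 1 := mul_le_mul_of_nonneg_left this hd.le
      _ = d := mul_one d
  -- small meshes
  set d0 : ℝ := min a (min (R.L0 / 100) (1 / ((n : ℝ) + 1) / 2)) with hd0
  have hd0p : 0 < d0 := lt_min ha (lt_min (by positivity) (by positivity))
  have hd01 : d0 ≤ a := min_le_left _ _
  have hd02 : 100 * d0 ≤ R.L0 := by
    have : d0 ≤ R.L0 / 100 := (min_le_right _ _).trans (min_le_left _ _)
    linarith
  have hd03 : d0 + d0 ≤ 1 / ((n : ℝ) + 1) := by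
    have : d0 ≤ 1 / ((n : ℝ) + 1) / 2 := (min_le_right _ _).trans (min_le_right _ _)
    linarith
  have h1 := (key d0 hd0p hd01 hd02 hd03).1
  have hpos : 0 < (energy ν).toReal := by linarith
  have e1 : ENNReal.ofReal c * (energy ν)⁻¹ = ENNReal.ofReal (c / (energy ν).toReal) := by
    rw [ENNReal.ofReal_div_of_pos hpos, ENNReal.ofReal_toReal he, ENNReal.div_eq_inv_mul, mul_comm]
  rw [e1]
  apply R.closed_ge hδ hμ (hclosed n)
  filter_upwards [hlim.eventually_lt_const hd0p] with i hi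
  exact (key (δ i) (hδ i) (by linarith) (by linarith) (by linarith)).2 (hδ i)

end Pool.Agent.Helper77K9.BC
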