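import Pool.Agent.Helper77K9.BC.Stm

/-!
Project BC: LW and NTB.
-/

set_option autoImplicit false

namespace Pool.Agent.Helper77K9.BC

open H974 H973 H934E Finset
open H731C (VE)
open TH868.CT (NX WX Hit kern en)

/-- an edge of a box has both ends in the columns of the box -/
theorem ve_cols {M : ℤ} {e : Edg} (he : e ∈ VE (-M) M 0 M) :
    (-M ≤ (src e).1 ∧ (src e).1 ≤ M) ∧ (-M ≤ (tgt e).1 ∧ (tgt e).1 ≤ M) := by
  have h := mem_RE_ends (H731C.VE_subset_RE he)
  unfold inR at h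
  omega

/-- a path in `F ∪ NX 0` from the origin can be taken inside the wired line and `F` -/
theorem reach_line {M : ℤ} (hM : 0 ≤ M) {A : Set Edg}
    (hA : ∀ l : ℤ, -M ≤ l → l ≤ 0 → Reach A (0, 0) (l, 0)) {F : Finset Edg}
    (hF : ∀ e ∈ F, (-M ≤ (src e).1 ∧ (src e).1 ≤ M) ∧ (-M ≤ (tgt e).1 ∧ (tgt e).1 ≤ M))
    {v : Vtx} (h : Reach (↑F ∪ NX 0) (0, 0) v) :
    Reach (↑F ∪ A) (0, 0) v ∨ (v.1 ≤ -M ∧ v.2 = 0) := by
  have hline : ∀ l : ℤ, -M ≤ l → l ≤ 0 → Reach (↑F ∪ A : Set Edg) (0, 0) (l, 0) :=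
    fun l h1 h2 => (hA l h1 h2).mono Set.subset_union_right
  induction h with
  | refl => exact Or.inl (Reach.refl _ _)
  | @tail x y _ hs ih =>
    obtain ⟨e, he, hc⟩ := hs
    have hex : (src e = x ∧ tgt e = y) ∨ (src e = y ∧ tgt e = x) := hc
    rcases he with he | he
    · -- an edge of F
      have hcol := hF e (Finset.mem_coe.mp he)
      have hx : Reach (↑F ∪ A : Set Edg) (0, 0) x := by
        rcases ih with ih | ⟨h1, h2⟩
        · exact ih
        · have : x = (-M, 0) := by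
            ext
            · simp only
              rcases hex with ⟨k1, -⟩ | ⟨-, k1⟩
              · rw [k1] at hcol; omega
              · rw [k1] at hcol; omega
            · exact h2
          rw [this]
          exact hline _ le_rfl (by omega)
      exact Or.inl (hx.trans (Adj.reach ⟨e, Or.inl he, hc⟩))
    · -- an edge of the axis
      obtain ⟨h1, h2, h3⟩ := he
      obtain ⟨a, b, bo⟩ := e
      simp only at h1 h2 h3
      subst h2
      subst h3
      rw [src_mk, tgt_true] at hex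
      have hy : y = (a, 0) ∨ y = (a + 1, 0) := by
        rcases hex with ⟨-, k⟩ | ⟨k, -⟩
        · exact Or.inr k.symm
        · exact Or.inl k.symm
      rcases hy with rfl | rfl
      · by_cases ha : -M ≤ a
        · exact Or.inl (hline _ ha (by omega))
        · exact Or.inr ⟨by simp only; omega, rfl⟩
      · by_cases ha : -M ≤ a + 1
        · exact Or.inl (hline _ ha (by omega))
        · exact Or.inr ⟨by simp only; omega, rfl⟩

theorem lw : S_LW := by
  intro M T A hM hD S hS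
  have hsub : VE (-M) M 0 M ⊆ ES T := by
    have h := H934E.RE_sub (k := 0) (R := M) hD.flat
    rw [zero_sub, zero_add] at h
    exact H731C.VE_subset_RE.trans h
  have e1 : Q (VE (-M) M 0 M) (Hit S) = Q (ES T) (fun F => Hit S (F ∩ VE (-M) M 0 M)) :=
    (Pr_restrict hsub (Hit S)).symm
  rw [e1]
  apply Q_mono
  rintro F _ ⟨x, hx, hW⟩
  have hx' := hS x hx
  refine ⟨x, hx, ?_⟩
  rcases reach_line (M := M) (by omega) (A := A) (fun l h1 h2 => hD.line h1 h2)
    (F := F ∩ VE (-M) M 0 M) (fun e he => ve_cols (Finset.mem_inter.mp he).2) hW with h | ⟨h, -⟩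
  · refine h.mono (Set.union_subset_union_left _ ?_)
    intro e he
    exact Finset.mem_coe.mpr (Finset.mem_inter.mp (Finset.mem_coe.mp he)).1
  · exfalso
    simp only at h
    omega

theorem mem_trl_mp {s t : ℤ} {F : Finset Edg} {a b : ℤ} {c : Bool} :
    ((a, b, c) : Edg) ∈ (trl s t).mp F ↔ ((a - s, b - t, c) : Edg) ∈ F := by
  rw [LSym.mem_mp]
  rfl

theorem Wd_trl (k r ρ j : ℤ) : (trl 0 (j - 1)).mp (Wd k r ρ 1) = Wd k r ρ j := by
  ext ⟨a, b, c⟩
  rw [mem_trl_mp]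
  unfold Wd
  cases c
  · rw [mem_RE_false, mem_RE_false]; omega
  · rw [mem_RE_true, mem_RE_true]; omega

theorem ph_trl (k r ρ t : ℤ) (v : Vtx) : ph k r ρ ((trl 0 t).ψ v) = ph k r ρ v + ρ * t := by
  obtain ⟨a, b⟩ := v
  have e : (trl 0 t).ψ (a, b) = (a + 0, b + t) := rfl
  rw [e]
  unfold ph
  simp only [add_zero]
  ring

theorem EJ_trl {k r ρ j : ℤ} (F : Finset Edg) :
    EJ k r ρ j ((trl 0 (j - 1)).mp F) ↔ EJ k r ρ 1 F := by
  set g := trl 0 (j - 1) with hg
  have hW : (↑(g.mp F) ∩ ↑(Wd k r ρ j) : Set Edg) = g.φ '' (↑F ∩ ↑(Wd k r ρ 1)) := by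
    rw [← Wd_trl k r ρ j, LSym.coe_mp, LSym.coe_mp, Set.image_inter g.φ.injective]
  have hψ : ∀ v : Vtx, g.ψ v = (v.1, v.2 + (j - 1)) := by
    intro v
    have e : g.ψ v = (v.1 + 0, v.2 + (j - 1)) := rfl
    rw [e, add_zero]
  unfold EJ
  rw [hW]
  constructor
  · rintro ⟨v, h1, h2, h3, ⟨z, hz, hr⟩, h4⟩
    obtain ⟨v', rfl⟩ := g.ψ.surjective v
    obtain ⟨z', rfl⟩ := g.ψ.surjective z
    rw [LSym.reach_iff] at hr
    rw [ph_trl] at h1 h2
    refine ⟨v', by nlinarith, by nlinarith, ?_, ⟨z', ?_, hr⟩, ?_⟩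
    · rw [hψ] at h3; exact h3
    · rw [hψ] at hz
      simp only at hz
      omega
    · intro w hw
      have h5 := h4 (g.ψ w) (g.reach_iff.mpr hw)
      rw [ph_trl, ph_trl] at h5
      linarith
  · rintro ⟨v, h1, h2, h3, ⟨z, hz, hr⟩, h4⟩
    refine ⟨g.ψ v, ?_, ?_, ?_, ⟨g.ψ z, ?_, g.reach_iff.mpr hr⟩, ?_⟩
    · rw [ph_trl]; nlinarith
    · rw [ph_trl]; nlinarith
    · rw [hψ]; exact h3
    · rw [hψ]; simp only; omega
    · intro w hw
      obtain ⟨w', rfl⟩ := g.ψ.surjective w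
      rw [LSym.reach_iff] at hw
      have h5 := h4 w' hw
      rw [ph_trl, ph_trl]
      linarith

theorem ntb : S_NTB := by
  intro k r ρ j
  unfold Q
  rw [← Wd_trl k r ρ j, LSym.pr]
  apply Pr_congr
  intro F _
  exact EJ_trl F

end Pool.Agent.Helper77K9.BC
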