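import Pool.Agent.Helper77K9.BC.Stm

/-!
Project BC, [NR]: near-touches in the rectangle have small probability, uniformly in the mesh.
-/

set_option autoImplicit false

namespace Pool.Agent.Helper77K9.BC

open H974 H973 H934E Finset MeasureTheory TopologicalSpace Filter Topology
open H731C (VE)
open scoped ENNReal

/-- The event at one grid point. -/
theorem nr_geom (R : Rect) (S : Set ℝ) (a b θ η δ : ℝ) (hS : S ⊆ Set.Icc a b) (hθ : 0 < θ)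
    (ha : 32 * θ ≤ a) (hb : 8 * b ≤ R.L0) (hη : 0 < η) (hηθ : η ≤ θ) (hδ : 0 < δ)
    (hδθ : δ ≤ θ / 8) (hδη : δ ≤ η) (m : ℤ) (hm : ∃ x ∈ S, θ * m ≤ x ∧ x < θ * (m + 1)) :
    1 ≤ ⌈η / δ⌉ ∧ ⌈η / δ⌉ ≤ ⌈9 * θ / (4 * δ)⌉ ∧
      8 * ⌈9 * θ / (4 * δ)⌉ ≤ ⌊θ * m / δ⌋ ∧
      Free ⌊θ * m / δ⌋ (8 * ⌈9 * θ / (4 * δ)⌉) (R.verts δ) (R.wired δ) ∧
      ((⌈η / δ⌉ : ℤ) : ℝ) / ((⌈9 * θ / (4 * δ)⌉ : ℤ) : ℝ) ≤ η / θ := by
  obtain ⟨x, hx, hx1, hx2⟩ := hm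
  have hxS := hS hx
  have q0 : θ / δ * δ = θ := by field_simp
  have q1 : 8 ≤ θ / δ := by rw [le_div_iff₀ hδ]; linarith
  have q2 : η / δ ≤ θ / δ := div_le_div_of_nonneg_right hηθ hδ.le
  have q3 : 1 ≤ η / δ := by rw [le_div_iff₀ hδ]; linarith
  have q4 : 9 * θ / (4 * δ) = 9 / 4 * (θ / δ) := by field_simp
  have r1 : η / δ ≤ (⌈η / δ⌉ : ℝ) := Int.le_ceil _
  have r2 : (⌈η / δ⌉ : ℝ) < η / δ + 1 := Int.ceil_lt_add_one _
  have s1 : 9 * θ / (4 * δ) ≤ (⌈9 * θ / (4 * δ)⌉ : ℝ) := Int.le_ceil _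
  have s2 : (⌈9 * θ / (4 * δ)⌉ : ℝ) < 9 * θ / (4 * δ) + 1 := Int.ceil_lt_add_one _
  have k1 : (⌊θ * m / δ⌋ : ℝ) ≤ θ * m / δ := Int.floor_le _
  have k2 : θ * m / δ < (⌊θ * m / δ⌋ : ℝ) + 1 := Int.lt_floor_add_one _
  set r : ℤ := ⌈η / δ⌉ with hr
  set ρ : ℤ := ⌈9 * θ / (4 * δ)⌉ with hρ
  set k : ℤ := ⌊θ * m / δ⌋ with hk
  rw [q4] at s1 s2
  have t1 : 31 * (θ / δ) ≤ θ * m / δ := by
    rw [← mul_div_assoc]
    exact div_le_div_of_nonneg_right (by linarith [hxS.1]) hδ.le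
  have t2 : θ * m / δ ≤ b / δ := div_le_div_of_nonneg_right (by linarith [hxS.2]) hδ.le
  have t3 : 32 * (θ / δ) ≤ b / δ := by
    rw [← mul_div_assoc]
    exact div_le_div_of_nonneg_right (by linarith [hxS.1, hxS.2]) hδ.le
  have t4 : 8 * (b / δ) ≤ R.L0 / δ := by
    rw [← mul_div_assoc]
    exact div_le_div_of_nonneg_right hb hδ.le
  have t5 : R.L0 / δ < (⌊R.L0 / δ⌋ : ℝ) + 1 := Int.lt_floor_add_one _
  have g1 : 1 ≤ r := by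
    have : (0 : ℝ) < r := by linarith
    exact_mod_cast this
  have g2 : r ≤ ρ := by
    have : (r : ℝ) < ρ := by linarith
    exact_mod_cast this.le
  have g3 : 8 * ρ ≤ k := by
    have : ((8 * ρ : ℤ) : ℝ) < k := by push_cast; linarith
    exact_mod_cast this.le
  have g4 : k + 8 * ρ ≤ ⌊R.L0 / δ⌋ - 3 := by
    have : ((k + 8 * ρ : ℤ) : ℝ) ≤ ((⌊R.L0 / δ⌋ - 3 : ℤ) : ℝ) := by push_cast; linarith
    exact_mod_cast this
  refine ⟨g1, g2, g3, (R.dob hδ (M := ⌊R.L0 / δ⌋ - 3) le_rfl).toFree g3 g4, ?_⟩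
  have hρ0 : (0 : ℝ) < ρ := by linarith
  rw [div_le_iff₀ hρ0]
  have h9 : (0 : ℝ) ≤ η / θ := by positivity
  calc (r : ℝ) ≤ 9 / 4 * (η / δ) := by linarith
    _ = η / θ * (9 / 4 * (θ / δ)) := by field_simp
    _ ≤ η / θ * ρ := mul_le_mul_of_nonneg_left s1 h9

/-- The event in terms of the grid points. -/
theorem nr_event (R : Rect) (S : Set ℝ) (a b θ η δ : ℝ) (hS : S ⊆ Set.Icc a b) (hθ : 0 < θ)
    (ha : 32 * θ ≤ a) (hb : 8 * b ≤ R.L0) (hη : 0 < η) (hηθ : η ≤ θ) (hδ : 0 < δ)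
    (hδθ : δ ≤ θ / 8) (hδη : δ ≤ η) {F : Finset Edg} (hF : F ⊆ R.edges δ)
    (hP : (R.path δ F ∩ US S θ η).Nonempty)
    (hN : ∀ k ∈ NearS δ (16 * θ) S, ¬ H934E.W (R.wired δ) F (k, 0)) :
    ∃ m ∈ Finset.Icc (0 : ℤ) ⌈b / θ⌉, (∃ x ∈ S, θ * m ≤ x ∧ x < θ * (m + 1)) ∧
      Near (R.wired δ) ⌊θ * m / δ⌋ ⌈9 * θ / (4 * δ)⌉ ⌈η / δ⌉ F := by
  obtain ⟨z, hz1, hz2, x, hx, hz3⟩ := hP
  have hxS := hS hx
  obtain ⟨v, hv, hv1, hv2⟩ := R.path_near hδ hz1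
  have hm1 : (⌊x / θ⌋ : ℝ) ≤ x / θ := Int.floor_le _
  have hm2 : x / θ < (⌊x / θ⌋ : ℝ) + 1 := Int.lt_floor_add_one _
  set m : ℤ := ⌊x / θ⌋ with hm
  rw [le_div_iff₀ hθ] at hm1
  rw [div_lt_iff₀ hθ] at hm2
  have hx1 : θ * m ≤ x := by linarith
  have hx2 : x < θ * (m + 1) := by linarith
  have q1 : 8 ≤ θ / δ := by rw [le_div_iff₀ hδ]; linarith
  have q4 : 9 * θ / (4 * δ) = 9 / 4 * (θ / δ) := by field_simp
  have qδ : θ / δ * δ = θ := by field_simp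
  have r1 : η / δ ≤ (⌈η / δ⌉ : ℝ) := Int.le_ceil _
  have s1 : 9 * θ / (4 * δ) ≤ (⌈9 * θ / (4 * δ)⌉ : ℝ) := Int.le_ceil _
  have s2 : (⌈9 * θ / (4 * δ)⌉ : ℝ) < 9 * θ / (4 * δ) + 1 := Int.ceil_lt_add_one _
  have k1 : (⌊θ * m / δ⌋ : ℝ) ≤ θ * m / δ := Int.floor_le _
  have k2 : θ * m / δ < (⌊θ * m / δ⌋ : ℝ) + 1 := Int.lt_floor_add_one _
  have hy : 0 ≤ R.y1 δ := by
    have t3 : 32 * (θ / δ) ≤ R.L0 / δ := by
      rw [← mul_div_assoc]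
      exact div_le_div_of_nonneg_right (by linarith [hxS.1, hxS.2]) hδ.le
    have t4 : R.L0 / δ ≤ R.H / δ := div_le_div_of_nonneg_right R.L0_H hδ.le
    have t5 : R.H / δ ≤ (⌈R.H / δ⌉ : ℝ) := Int.le_ceil _
    have t6 : (2 : ℝ) ≤ (⌈R.H / δ⌉ : ℝ) := by linarith
    have t7 : (2 : ℤ) ≤ ⌈R.H / δ⌉ := by exact_mod_cast t6
    unfold Rect.y1
    omega
  have hv0 := R.clu_nonneg hy hF hv
  set r : ℤ := ⌈η / δ⌉ with hr
  set ρ : ℤ := ⌈9 * θ / (4 * δ)⌉ with hρ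
  set k : ℤ := ⌊θ * m / δ⌋ with hk
  rw [q4] at s1 s2
  have k1' : δ * k ≤ θ * m := by
    have := mul_le_mul_of_nonneg_left k1 hδ.le
    have e : δ * (θ * m / δ) = θ * m := by field_simp
    linarith
  have k2' : θ * m < δ * k + δ := by
    have := mul_lt_mul_of_pos_left k2 hδ
    have e : δ * (θ * m / δ) = θ * m := by field_simp
    linarith
  have s1' : 9 / 4 * θ ≤ δ * ρ := by
    have := mul_le_mul_of_nonneg_left s1 hδ.le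
    have e : δ * (9 / 4 * (θ / δ)) = 9 / 4 * θ := by field_simp
    linarith
  have s2' : δ * ρ < 9 / 4 * θ + δ := by
    have := mul_lt_mul_of_pos_left s2 hδ
    have e : δ * (9 / 4 * (θ / δ) + 1) = 9 / 4 * θ + δ := by field_simp
    linarith
  have r1' : η ≤ δ * r := by
    have := mul_le_mul_of_nonneg_left r1 hδ.le
    have e : δ * (η / δ) = η := by field_simp
    linarith
  rw [abs_le] at hv1 hv2
  rw [abs_lt] at hz2 hz3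
  refine ⟨m, ?_, ⟨x, hx, hx1, hx2⟩, ⟨v, ⟨⟨?_, ?_⟩, hv0, ?_⟩, hv⟩, ?_⟩
  · rw [Finset.mem_Icc]
    constructor
    · rw [hm]
      apply Int.floor_nonneg.mpr
      apply div_nonneg _ hθ.le
      linarith [hxS.1]
    · rw [hm]
      refine (Int.floor_le_ceil _).trans (Int.ceil_le_ceil ?_)
      exact div_le_div_of_nonneg_right hxS.2 hθ.le
  · have : ((k - ρ : ℤ) : ℝ) ≤ v.1 := by
      push_cast
      have h : δ * ((k : ℝ) - ρ) ≤ δ * v.1 := by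
        rw [mul_sub]
        linarith [hz3.1, hv1.2]
      exact le_of_mul_le_mul_left h hδ
    exact_mod_cast this
  · have : (v.1 : ℝ) ≤ ((k + ρ : ℤ) : ℝ) := by
      push_cast
      have h : δ * (v.1 : ℝ) ≤ δ * ((k : ℝ) + ρ) := by
        rw [mul_add]
        linarith [hz3.2, hv1.1]
      exact le_of_mul_le_mul_left h hδ
    exact_mod_cast this
  · have : (v.2 : ℝ) ≤ r := by
      have h : δ * (v.2 : ℝ) ≤ δ * r := by
        linarith [hz2.2, hv2.1]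
      exact le_of_mul_le_mul_left h hδ
    exact_mod_cast this
  · intro l hl1 hl2
    apply hN
    refine ⟨x, hx, ?_⟩
    have l1 : ((k - 6 * ρ : ℤ) : ℝ) ≤ l := by exact_mod_cast hl1
    have l2 : (l : ℝ) ≤ ((k + 6 * ρ : ℤ) : ℝ) := by exact_mod_cast hl2
    push_cast at l1 l2
    have l1' := mul_le_mul_of_nonneg_left l1 hδ.le
    have l2' := mul_le_mul_of_nonneg_left l2 hδ.le
    rw [abs_le]
    constructor <;> nlinarith

theorem nr (hNT : S_NT) : S_NR := by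
  classical
  obtain ⟨C, hC, h⟩ := hNT
  intro R S a b θ e _ hS hθ ha hb he
  set J : Finset ℤ := Finset.Icc (0 : ℤ) ⌈b / θ⌉ with hJ
  set N : ℝ := (J.card : ℝ) + 1 with hN
  have hN0 : 0 < N := by positivity
  set η : ℝ := min θ (e * θ / (N * C)) with hη
  have hη0 : 0 < η := lt_min hθ (by positivity)
  have hηθ : η ≤ θ := min_le_left _ _
  have hηe : η ≤ e * θ / (N * C) := min_le_right _ _
  refine ⟨η, hη0, hηθ, min (θ / 8) η, lt_min (by positivity) hη0, ?_⟩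
  intro δ hδ hδ0
  have hδθ : δ ≤ θ / 8 := hδ0.le.trans (min_le_left _ _)
  have hδη : δ ≤ η := hδ0.le.trans (min_le_right _ _)
  have i1 : Q (R.edges δ) (fun F => (R.path δ F ∩ US S θ η).Nonempty ∧
        ∀ k ∈ NearS δ (16 * θ) S, ¬ H934E.W (R.wired δ) F (k, 0)) ≤
      Q (R.edges δ) (fun F => ∃ m ∈ J.filter (fun m : ℤ => ∃ x ∈ S, θ * m ≤ x ∧
        x < θ * (m + 1)), Near (R.wired δ) ⌊θ * m / δ⌋ ⌈9 * θ / (4 * δ)⌉ ⌈η / δ⌉ F) := by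
    apply Q_mono
    rintro F hF ⟨hP, hNN⟩
    obtain ⟨m, hm1, hm2, hm3⟩ := nr_event R S a b θ η δ hS hθ ha hb hη0 hηθ hδ hδθ hδη hF hP hNN
    exact ⟨m, Finset.mem_filter.mpr ⟨hm1, hm2⟩, hm3⟩
  have i2 := Pr_exists_le okhalf (R.edges δ) (J.filter (fun m : ℤ => ∃ x ∈ S, θ * m ≤ x ∧
        x < θ * (m + 1))) (fun m F => Near (R.wired δ) ⌊θ * m / δ⌋ ⌈9 * θ / (4 * δ)⌉ ⌈η / δ⌉ F)
  have i3 : ∀ m ∈ J.filter (fun m : ℤ => ∃ x ∈ S, θ * m ≤ x ∧ x < θ * (m + 1)),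
      Pr (fun _ => (1/2 : ℝ)) (R.edges δ) (fun F => Near (R.wired δ) ⌊θ * m / δ⌋
        ⌈9 * θ / (4 * δ)⌉ ⌈η / δ⌉ F) ≤ C * (η / θ) := by
    intro m hm
    obtain ⟨g1, g2, g3, g4, g5⟩ := nr_geom R S a b θ η δ hS hθ ha hb hη0 hηθ hδ hδθ hδη m
      (Finset.mem_filter.mp hm).2
    have := h (R.verts δ) (R.wired δ) _ _ _ g1 g2 g3 g4
    exact this.trans (mul_le_mul_of_nonneg_left g5 hC.le)
  have i4 := Finset.sum_le_card_nsmul _ _ _ i3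
  have i5 : (((J.filter (fun m : ℤ => ∃ x ∈ S, θ * m ≤ x ∧ x < θ * (m + 1))).card : ℕ) : ℝ) ≤
      N := by
    have : (J.filter (fun m : ℤ => ∃ x ∈ S, θ * m ≤ x ∧ x < θ * (m + 1))).card ≤ J.card :=
      Finset.card_filter_le _ _
    have h2 : (((J.filter (fun m : ℤ => ∃ x ∈ S, θ * m ≤ x ∧ x < θ * (m + 1))).card : ℕ) : ℝ) ≤
      (J.card : ℝ) := by exact_mod_cast this
    linarith
  rw [nsmul_eq_mul] at i4
  refine (i1.trans i2).trans (i4.trans ?_)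
  have h9 : (0 : ℝ) ≤ C * (η / θ) := by positivity
  refine (mul_le_mul_of_nonneg_right i5 h9).trans ?_
  calc N * (C * (η / θ)) = (N * C / θ) * η := by ring
    _ ≤ (N * C / θ) * (e * θ / (N * C)) := mul_le_mul_of_nonneg_left hηe (by positivity)
    _ = e := by field_simp

end Pool.Agent.Helper77K9.BC
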