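import Pool.Agent.Helper77K9.BC.Stm

/-!
Project BC: NTA.
-/

set_option autoImplicit false

namespace Pool.Agent.Helper77K9.BC

open H974 H973 H934E Finset

/-- the same without vertices in the row `0` -/
def EJ' (k r ρ j : ℤ) (F : Finset Edg) : Prop :=
  ∃ v : Vtx, ρ * j ≤ ph k r ρ v ∧ ph k r ρ v < ρ * (j + 1) ∧ |v.1 - k| ≤ 2 * ρ ∧
    (∃ z : Vtx, (z.1 = k - 6 * ρ ∨ z.1 = k + 6 * ρ ∨ z.2 = j + 6 * ρ) ∧
      Reach (↑F ∩ ↑(Wd k r ρ j)) v z) ∧
    ∀ w : Vtx, Reach (↑F ∩ ↑(Wd k r ρ j)) v w → ph k r ρ v ≤ ph k r ρ w ∧ 1 ≤ w.2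

theorem ends_close {e : Edg} {x y : Vtx} (h : (src e = x ∧ tgt e = y) ∨ (src e = y ∧ tgt e = x)) :
    |y.1 - x.1| ≤ 1 ∧ |y.2 - x.2| ≤ 1 := by
  obtain ⟨a, b, c⟩ := e
  cases c
  · rw [src_mk, tgt_false] at h
    rcases h with ⟨rfl, rfl⟩ | ⟨rfl, rfl⟩
    · simp
    · simp
  · rw [src_mk, tgt_true] at h
    rcases h with ⟨rfl, rfl⟩ | ⟨rfl, rfl⟩
    · simp
    · simp

theorem flat_edge {k ρ : ℤ} {T : Finset Vtx} {A : Set Edg} (hF : Free k (8 * ρ) T A) {e : Edg}
    (h1 : inR (k - 8 * ρ) (k + 8 * ρ) 0 (8 * ρ) (src e))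
    (h2 : inR (k - 8 * ρ) (k + 8 * ρ) 0 (8 * ρ) (tgt e)) : e ∈ ES T := by
  unfold inR at h1 h2
  rw [mem_ES]
  constructor
  · exact (hF.flat _ (by rw [mem_BX]; simp only; omega)).mpr (by omega)
  · exact (hF.flat _ (by rw [mem_BX]; simp only; omega)).mpr (by omega)

/-- rows of the vertices above the level `j` -/
theorem row_ge {k r ρ j : ℤ} (hr : 1 ≤ r) (hρ : 1 ≤ ρ) {w : Vtx} (hw : |w.1 - k| ≤ 6 * ρ)
    (h : ρ * j ≤ ph k r ρ w) : j - 6 * r ≤ w.2 := by
  unfold ph at h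
  have h1 : r * |w.1 - k| ≤ r * (6 * ρ) := mul_le_mul_of_nonneg_left hw (by omega)
  have h2 : ρ * (j - 6 * r) ≤ ρ * w.2 := by nlinarith
  exact le_of_mul_le_mul_left h2 (by omega)

theorem ej'_le {T : Finset Vtx} {A : Set Edg} {k r ρ j : ℤ} (hr : 1 ≤ r) (hrρ : r ≤ ρ)
    (hj1 : 1 ≤ j) (hj2 : j ≤ 2 * r) (hF : Free k (8 * ρ) T A) :
    Q (ES T) (EJ' k r ρ j) ≤ Q (Wd k r ρ j) (EJ k r ρ j) := by
  set S0 : Finset Edg := ES T ∩ Wd k r ρ j with hS0
  have e1 : Q (ES T) (EJ' k r ρ j) = Q S0 (EJ' k r ρ j) := by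
    apply Pr_local (S := ES T) (S' := S0) Finset.inter_subset_left
    intro G hG
    have e : (↑(G ∩ S0) ∩ ↑(Wd k r ρ j) : Set Edg) = ↑G ∩ ↑(Wd k r ρ j) := by
      ext e
      simp only [Set.mem_inter_iff, Finset.mem_coe, hS0, Finset.mem_inter]
      constructor
      · rintro ⟨⟨h1, -, -⟩, h2⟩; exact ⟨h1, h2⟩
      · rintro ⟨h1, h2⟩; exact ⟨⟨h1, hG h1, h2⟩, h2⟩
    unfold EJ'
    rw [e]
  have e2 : Q S0 (EJ' k r ρ j) = Q (Wd k r ρ j) (fun F => EJ' k r ρ j (F ∩ S0)) :=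
    (Pr_restrict (S := Wd k r ρ j) (S' := S0) Finset.inter_subset_right _).symm
  rw [e1, e2]
  apply Q_mono
  rintro F hFW ⟨v, h1, h2, h3, ⟨z, hz, hzr⟩, h4⟩
  have hsub : (↑(F ∩ S0) ∩ ↑(Wd k r ρ j) : Set Edg) ⊆ ↑F ∩ ↑(Wd k r ρ j) := by
    rintro e ⟨he1, he2⟩
    exact ⟨Finset.mem_coe.mpr (Finset.mem_inter.mp (Finset.mem_coe.mp he1)).1, he2⟩
  refine ⟨v, h1, h2, h3, ⟨z, hz, hzr.mono hsub⟩, ?_⟩
  intro w hw
  have key : Reach (↑(F ∩ S0) ∩ ↑(Wd k r ρ j) : Set Edg) v w := by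
    induction hw with
    | refl => exact Reach.refl _ _
    | @tail x y _ hs ih =>
      obtain ⟨e, ⟨he1, he2⟩, hc⟩ := hs
      have hx := (h4 x ih).2
      have hcl := ends_close hc
      have hends := mem_RE_ends (show e ∈ RE _ _ _ _ from Finset.mem_coe.mp he2)
      have hy : 0 ≤ y.2 := by
        have := abs_le.mp hcl.2
        omega
      have heT : e ∈ ES T := by
        unfold inR at hends
        rcases hc with ⟨k1, k2⟩ | ⟨k1, k2⟩
        · apply flat_edge hF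
          · rw [k1] at hends ⊢; unfold inR; omega
          · rw [k2] at hends ⊢; unfold inR; omega
        · apply flat_edge hF
          · rw [k1] at hends ⊢; unfold inR; omega
          · rw [k2] at hends ⊢; unfold inR; omega
      refine Reach.trans ih (Adj.reach ⟨e, ⟨?_, he2⟩, hc⟩)
      rw [Finset.mem_coe, Finset.mem_inter, hS0, Finset.mem_inter]
      exact ⟨Finset.mem_coe.mp he1, heT, Finset.mem_coe.mp he2⟩
  exact (h4 w key).1

theorem near_ej {T : Finset Vtx} {A : Set Edg} {k r ρ : ℤ} (hr : 1 ≤ r) (hrρ : r ≤ ρ)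
    (hk : 8 * ρ ≤ k) (hFr : Free k (8 * ρ) T A) {F : Finset Edg} (hF : F ⊆ ES T)
    (h : Near A k ρ r F) : ∃ j ∈ Finset.Icc 1 (2 * r), EJ' k r ρ j F := by
  classical
  obtain ⟨⟨u, hu, hWu⟩, hno⟩ := h
  unfold inR at hu
  have hρ : 1 ≤ ρ := by omega
  -- the minimiser
  set P : Finset Vtx := ((Finset.Icc (k - 6 * ρ) (k + 6 * ρ)) ×ˢ
    (Finset.Icc (0 : ℤ) (8 * ρ))).filter (fun w => H934E.W A F w) with hP
  have hPm : ∀ w : Vtx, w ∈ P ↔ ((k - 6 * ρ ≤ w.1 ∧ w.1 ≤ k + 6 * ρ) ∧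
      (0 ≤ w.2 ∧ w.2 ≤ 8 * ρ)) ∧ H934E.W A F w := by
    intro w
    rw [hP, Finset.mem_filter, Finset.mem_product, Finset.mem_Icc, Finset.mem_Icc]
  have huP : u ∈ P := (hPm u).mpr ⟨by omega, hWu⟩
  obtain ⟨v, hvP, hmin⟩ := Finset.exists_min_image P (ph k r ρ) ⟨u, huP⟩
  obtain ⟨⟨hv1, hv2⟩, hWv⟩ := (hPm v).mp hvP
  have hpos : ∀ w ∈ P, 1 ≤ w.2 := by
    intro w hw
    obtain ⟨⟨h1, h2⟩, h3⟩ := (hPm w).mp hw
    by_contra hcon
    have h0 : w.2 = 0 := by omega
    apply hno w.1 h1.1 h1.2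
    have : ((w.1, 0) : Vtx) = w := by rw [← h0]
    rw [this]
    exact h3
  have hv2' := hpos v hvP
  have hphu : ph k r ρ u ≤ 2 * r * ρ := by
    unfold ph
    have a1 : |u.1 - k| ≤ ρ := by rw [abs_le]; constructor <;> omega
    have a2 : ρ * u.2 ≤ ρ * r := mul_le_mul_of_nonneg_left (by omega) (by omega)
    have a3 : r * |u.1 - k| ≤ r * ρ := mul_le_mul_of_nonneg_left a1 (by omega)
    nlinarith
  have hlam := (hmin u huP).trans hphu
  have hab := abs_nonneg (v.1 - k)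
  have hlam1 : ρ ≤ ph k r ρ v := by
    unfold ph
    have a1 : ρ * 1 ≤ ρ * v.2 := mul_le_mul_of_nonneg_left hv2' (by omega)
    have a2 : 0 ≤ r * |v.1 - k| := mul_nonneg (by omega) hab
    nlinarith
  set lam : ℤ := ph k r ρ v with hlamdef
  set j : ℤ := lam / ρ with hj
  have hj1 : ρ * j ≤ lam := by
    have := Int.mul_ediv_add_emod lam ρ
    have h2 := Int.emod_nonneg lam (show ρ ≠ 0 by omega)
    rw [← hj] at this
    omega
  have hj2 : lam < ρ * (j + 1) := by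
    have := Int.mul_ediv_add_emod lam ρ
    have h2 := Int.emod_lt_of_pos lam (show 0 < ρ by omega)
    rw [← hj] at this
    rw [mul_add, mul_one]
    omega
  have hj3 : 1 ≤ j := by
    rw [hj]
    exact (Int.le_ediv_iff_mul_le (by omega)).mpr (by omega)
  have hj4 : j ≤ 2 * r := by
    by_contra hcon
    push Not at hcon
    have : ρ * (2 * r + 1) ≤ ρ * j := mul_le_mul_of_nonneg_left (by omega) (by omega)
    nlinarith
  have hvk : |v.1 - k| ≤ 2 * ρ := by
    have a1 : r * |v.1 - k| ≤ r * (2 * ρ) := by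
      have a2 : lam = ρ * v.2 + r * |v.1 - k| := rfl
      have a3 : 0 ≤ ρ * v.2 := mul_nonneg (by omega) (by omega)
      nlinarith
    exact le_of_mul_le_mul_left a1 (by omega)
  have hvj : v.2 ≤ j := by
    have a2 : lam = ρ * v.2 + r * |v.1 - k| := rfl
    have a3 : 0 ≤ r * |v.1 - k| := mul_nonneg (by omega) hab
    have a4 : ρ * v.2 < ρ * (j + 1) := by omega
    have := lt_of_mul_lt_mul_left a4 (by omega)
    omega
  -- the window cluster
  have hD : ∀ w : Vtx, Reach (↑F ∩ ↑(Wd k r ρ j)) v w → w ∈ P := by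
    intro w hw
    induction hw with
    | refl => exact hvP
    | @tail x y _ hs ih =>
      obtain ⟨e, ⟨he1, he2⟩, hc⟩ := hs
      have hends := mem_RE_ends (show e ∈ RE _ _ _ _ from Finset.mem_coe.mp he2)
      have heT := mem_ES.mp (hF (Finset.mem_coe.mp he1))
      have hWx := ((hPm x).mp ih).2
      have hWy : H934E.W A F y := Reach.trans hWx (Adj.reach ⟨e, Or.inl he1, hc⟩)
      unfold inR at hends
      rw [hPm]
      refine ⟨?_, hWy⟩
      rcases hc with ⟨k1, k2⟩ | ⟨k1, k2⟩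
      · rw [k2] at hends heT
        have := (hFr.flat y (by rw [mem_BX]; simp only; omega)).mp heT.2
        omega
      · rw [k1] at hends heT
        have := (hFr.flat y (by rw [mem_BX]; simp only; omega)).mp heT.1
        omega
  refine ⟨j, Finset.mem_Icc.mpr ⟨hj3, hj4⟩, v, hj1, hj2, hvk, ?_, ?_⟩
  · -- the rim
    have key : ∀ y : Vtx, Reach (↑F ∪ A : Set Edg) v y →
        (∃ z : Vtx, (z.1 = k - 6 * ρ ∨ z.1 = k + 6 * ρ ∨ z.2 = j + 6 * ρ) ∧
          Reach (↑F ∩ ↑(Wd k r ρ j)) v z) ∨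
        (Reach (↑F ∩ ↑(Wd k r ρ j)) v y ∧ (k - 6 * ρ < y.1 ∧ y.1 < k + 6 * ρ) ∧
          y.2 < j + 6 * ρ) := by
      intro y hy
      induction hy with
      | refl =>
        right
        have := abs_le.mp hvk
        exact ⟨Reach.refl _ _, by omega, by omega⟩
      | @tail x y _ hs ih =>
        rcases ih with ih | ⟨ih, hx1, hx2⟩
        · exact Or.inl ih
        · have hxP := hD x ih
          have hx3 := ((hPm x).mp hxP).1
          have hx4 := hmin x hxP
          have hx5 := row_ge hr hρ (w := x) (by rw [abs_le]; constructor <;> omega)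
            (hj1.trans hx4)
          obtain ⟨e, he, hc⟩ := hs
          have hcl := ends_close hc
          have c1 := abs_le.mp hcl.1
          have c2 := abs_le.mp hcl.2
          have heBX : e ∈ ES (BX (k, 0) (8 * ρ)) := by
            rw [mem_ES, mem_BX, mem_BX]
            rcases hc with ⟨k1, k2⟩ | ⟨k1, k2⟩
            · rw [k1, k2]; simp only; omega
            · rw [k1, k2]; simp only; omega
          have heF : e ∈ (↑F : Set Edg) := by
            rcases he with he | he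
            · exact he
            · exact absurd heBX (hFr.free e he)
          have heW : e ∈ (↑(Wd k r ρ j) : Set Edg) := by
            rw [Finset.mem_coe]
            unfold Wd
            rcases hc with ⟨k1, k2⟩ | ⟨k1, k2⟩
            · apply H731C.RE_of_ends
              · rw [k1]; unfold inR; omega
              · rw [k2]; unfold inR; omega
            · apply H731C.RE_of_ends
              · rw [k1]; unfold inR; omega
              · rw [k2]; unfold inR; omega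
          have hy : Reach (↑F ∩ ↑(Wd k r ρ j)) v y :=
            Reach.trans ih (Adj.reach ⟨e, ⟨heF, heW⟩, hc⟩)
          by_cases hrim : y.1 = k - 6 * ρ ∨ y.1 = k + 6 * ρ ∨ y.2 = j + 6 * ρ
          · exact Or.inl ⟨y, hrim, hy⟩
          · right
            push Not at hrim
            exact ⟨hy, by omega, by omega⟩
    rcases key (0, 0) (Reach.symm hWv) with h | ⟨-, h, -⟩
    · exact h
    · exfalso
      simp only at h
      omega
  · intro w hw
    exact ⟨hmin w (hD w hw), hpos w (hD w hw)⟩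

theorem nta : S_NTA := by
  intro T A k r ρ hr hrρ hk hFr
  have h1 : Q (ES T) (Near A k ρ r) ≤
      Q (ES T) (fun F => ∃ j ∈ Finset.Icc 1 (2 * r), EJ' k r ρ j F) :=
    Q_mono fun F hF h => near_ej hr hrρ hk hFr hF h
  refine h1.trans ((Pr_exists_le okhalf (ES T) _ _).trans ?_)
  apply Finset.sum_le_sum
  intro j hj
  rw [Finset.mem_Icc] at hj
  exact ej'_le hr hrρ hj.1 hj.2 hFr

end Pool.Agent.Helper77K9.BC
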