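import Pool.Agent.Helper77K9.BC.Nta
import Pool.Agent.H12R2.Sep.WinHalf
import Pool.Agent.H12R2.Sep.Win1
import Pool.Agent.H974R2.Count

/-!
Project BC: NTC.
-/

set_option autoImplicit false

namespace Pool.Agent.Helper77K9.BC

open H974 H973 H934E Finset

/-- the box of the count -/
noncomputable def LB (k ρ : ℤ) : Finset Edg := RE (k - 6 * ρ) (k + 6 * ρ) (-(6 * ρ)) (6 * ρ)

/-- its columns and top -/
def BB (k ρ : ℤ) : Set Vtx := {w | w.1 = k - 6 * ρ ∨ w.1 = k + 6 * ρ ∨ w.2 = 6 * ρ}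

/-- the inner box -/
noncomputable def KB (k ρ : ℤ) : Finset Vtx :=
  (Finset.Icc (k - 2 * ρ) (k + 2 * ρ)) ×ˢ (Finset.Icc (-(2 * ρ)) (2 * ρ))

theorem reach_GR {F : Set Edg} {x y : Vtx} : Reach F x y ↔ GR src tgt F x y := Iff.rfl

/-- data of a level -/
theorem level {k r ρ j : ℤ} (hr : 1 ≤ r) (hrρ : r ≤ ρ) (hj1 : 1 ≤ j) (hj2 : j ≤ ρ)
    {F : Finset Edg} (h : EJ k r ρ j F) : ∃ v : Vtx, v ∈ KB k ρ ∧
      (ρ * j ≤ ph k r ρ v ∧ ph k r ρ v < ρ * (j + 1)) ∧
      (∃ b ∈ BB k ρ, Reach (↑(F ∩ LB k ρ) : Set Edg) v b) ∧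
      ∀ w : Vtx, Reach (↑(F ∩ LB k ρ) : Set Edg) v w → ph k r ρ v ≤ ph k r ρ w := by
  obtain ⟨v, h1, h2, h3, ⟨z, hz, hzr⟩, h4⟩ := h
  have hρ : 1 ≤ ρ := by omega
  have hab := abs_nonneg (v.1 - k)
  have h3' := abs_le.mp h3
  have e0 : ph k r ρ v = ρ * v.2 + r * |v.1 - k| := rfl
  have hr0 : 0 ≤ r * |v.1 - k| := mul_nonneg (by omega) hab
  have hv1 : v.2 ≤ j := by
    have a4 : ρ * v.2 < ρ * (j + 1) := by omega
    have := lt_of_mul_lt_mul_left a4 (by omega)
    omega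
  have hv2 : j - 2 * r ≤ v.2 := by
    have a1 : r * |v.1 - k| ≤ r * (2 * ρ) := mul_le_mul_of_nonneg_left h3 (by omega)
    have a2 : ρ * (j - 2 * r) ≤ ρ * v.2 := by nlinarith
    exact le_of_mul_le_mul_left a2 (by omega)
  refine ⟨v, ?_, ⟨h1, h2⟩, ?_, ?_⟩
  · unfold KB
    rw [Finset.mem_product, Finset.mem_Icc, Finset.mem_Icc]
    omega
  · have key : ∀ y : Vtx, Reach (↑F ∩ ↑(Wd k r ρ j) : Set Edg) v y →
        (∃ b ∈ BB k ρ, Reach (↑(F ∩ LB k ρ) : Set Edg) v b) ∨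
        (Reach (↑(F ∩ LB k ρ) : Set Edg) v y ∧ (k - 6 * ρ < y.1 ∧ y.1 < k + 6 * ρ) ∧
          y.2 < 6 * ρ) := by
      intro y hy
      induction hy with
      | refl => exact Or.inr ⟨Reach.refl _ _, by omega, by omega⟩
      | @tail x y _ hs ih =>
        rcases ih with ih | ⟨ih, hx1, hx2⟩
        · exact Or.inl ih
        · obtain ⟨e, ⟨he1, he2⟩, hc⟩ := hs
          have hcl := ends_close hc
          have c1 := abs_le.mp hcl.1
          have c2 := abs_le.mp hcl.2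
          have hends := mem_RE_ends (show e ∈ RE _ _ _ _ from Finset.mem_coe.mp he2)
          unfold inR at hends
          have heL : e ∈ LB k ρ := by
            unfold LB
            rcases hc with ⟨k1, k2⟩ | ⟨k1, k2⟩
            · rw [k1, k2] at hends
              apply H731C.RE_of_ends
              · rw [k1]; unfold inR; omega
              · rw [k2]; unfold inR; omega
            · rw [k1, k2] at hends
              apply H731C.RE_of_ends
              · rw [k1]; unfold inR; omega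
              · rw [k2]; unfold inR; omega
          have hy : Reach (↑(F ∩ LB k ρ) : Set Edg) v y :=
            Reach.trans ih (Adj.reach ⟨e, Finset.mem_coe.mpr
              (Finset.mem_inter.mpr ⟨Finset.mem_coe.mp he1, heL⟩), hc⟩)
          by_cases hrim : y.1 = k - 6 * ρ ∨ y.1 = k + 6 * ρ ∨ y.2 = 6 * ρ
          · exact Or.inl ⟨y, hrim, hy⟩
          · right
            push Not at hrim
            refine ⟨hy, ?_, ?_⟩
            · rcases hc with ⟨k1, k2⟩ | ⟨k1, k2⟩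
              · rw [k1, k2] at hends; omega
              · rw [k1, k2] at hends; omega
            · omega
    rcases key z hzr with h | ⟨-, h, h'⟩
    · exact h
    · exfalso
      omega
  · intro w hw
    have key : Reach (↑F ∩ ↑(Wd k r ρ j) : Set Edg) v w ∧ |w.1 - k| ≤ 6 * ρ := by
      induction hw with
      | refl => exact ⟨Reach.refl _ _, by rw [abs_le]; constructor <;> omega⟩
      | @tail x y _ hs ih =>
        obtain ⟨ih1, ih2⟩ := ih
        obtain ⟨e, he, hc⟩ := hs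
        have he' := Finset.mem_inter.mp (Finset.mem_coe.mp he)
        have hcl := ends_close hc
        have c1 := abs_le.mp hcl.1
        have c2 := abs_le.mp hcl.2
        have hends := mem_RE_ends (show e ∈ RE _ _ _ _ from he'.2)
        unfold inR at hends
        have hrow := row_ge hr hρ ih2 (h1.trans (h4 x ih1))
        have hyc : k - 6 * ρ ≤ y.1 ∧ y.1 ≤ k + 6 * ρ := by
          rcases hc with ⟨k1, k2⟩ | ⟨k1, k2⟩
          · rw [k1, k2] at hends; omega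
          · rw [k1, k2] at hends; omega
        have heW : e ∈ (↑(Wd k r ρ j) : Set Edg) := by
          rw [Finset.mem_coe]
          unfold Wd
          rcases hc with ⟨k1, k2⟩ | ⟨k1, k2⟩
          · rw [k1, k2] at hends
            apply H731C.RE_of_ends
            · rw [k1]; unfold inR; omega
            · rw [k2]; unfold inR; omega
          · rw [k1, k2] at hends
            apply H731C.RE_of_ends
            · rw [k1]; unfold inR; omega
            · rw [k2]; unfold inR; omega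
        refine ⟨ih1.trans (Adj.reach ⟨e, ⟨Finset.mem_coe.mpr he'.1, heW⟩, hc⟩), ?_⟩
        rw [abs_le]
        constructor <;> omega
    exact h4 w key.1

/-- the number of levels is at most the number of clusters -/
theorem count_le {k r ρ : ℤ} (hr : 1 ≤ r) (hrρ : r ≤ ρ) (F : Finset Edg) :
    ∑ j ∈ Finset.Icc 1 ρ, ind (EJ k r ρ j F) ≤
      ((H974.NC src tgt (KB k ρ) (BB k ρ) (↑(F ∩ LB k ρ) : Set Edg) : ℕ) : ℝ) := by
  classical
  set J : Finset ℤ := (Finset.Icc 1 ρ).filter (fun j => EJ k r ρ j F) with hJ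
  have h1 : ∑ j ∈ Finset.Icc 1 ρ, ind (EJ k r ρ j F) = (J.card : ℝ) := by
    rw [hJ, Finset.card_filter]
    push_cast
    apply Finset.sum_congr rfl
    intro j _
    unfold ind
    split_ifs <;> rfl
  rw [h1]
  unfold H974.NC
  norm_cast
  have hex : ∀ j ∈ J, ∃ v : Vtx, v ∈ KB k ρ ∧
      (ρ * j ≤ ph k r ρ v ∧ ph k r ρ v < ρ * (j + 1)) ∧
      (∃ b ∈ BB k ρ, Reach (↑(F ∩ LB k ρ) : Set Edg) v b) ∧
      ∀ w : Vtx, Reach (↑(F ∩ LB k ρ) : Set Edg) v w → ph k r ρ v ≤ ph k r ρ w := by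
    intro j hj
    rw [hJ, Finset.mem_filter, Finset.mem_Icc] at hj
    exact level hr hrρ hj.1.1 hj.1.2 hj.2
  choose! f hf1 hf2 hf3 hf4 using hex
  have hdis : ∀ i ∈ J, ∀ j ∈ J, i < j →
      ¬ Reach (↑(F ∩ LB k ρ) : Set Edg) (f j) (f i) := by
    intro i hi j hj hij hcon
    have a1 := hf4 j hj (f i) hcon
    have a2 := (hf2 j hj).1
    have a3 := (hf2 i hi).2
    have a4 : ρ * (i + 1) ≤ ρ * j := mul_le_mul_of_nonneg_left (by omega) (by omega)
    omega
  apply Finset.card_le_card_of_injOn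
    (fun j : ℤ => clu src tgt (↑(F ∩ LB k ρ) : Set Edg) (f j))
  · intro j hj
    rw [Finset.mem_coe] at hj ⊢
    rw [mem_TC]
    exact ⟨f j, hf1 j hj, hf3 j hj, rfl⟩
  · intro i hi j hj hij
    rw [Finset.mem_coe] at hi hj
    simp only at hij
    rcases lt_trichotomy i j with h | h | h
    · exfalso
      apply hdis i hi j hj h
      have : f i ∈ clu src tgt (↑(F ∩ LB k ρ) : Set Edg) (f j) := by
        rw [← hij]; exact GR.refl _ _
      exact this
    · exact h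
    · exfalso
      apply hdis j hj i hi h
      have : f j ∈ clu src tgt (↑(F ∩ LB k ρ) : Set Edg) (f i) := by
        rw [hij]; exact GR.refl _ _
      exact this

theorem cross_lt : ∃ lam : ℝ, lam < 1 ∧ ∀ k ρ : ℤ, 1 ≤ ρ →
    Pr (fun _ => (1/2 : ℝ)) (LB k ρ) (fun G : Finset Edg =>
      ∃ x ∈ KB k ρ, RB src tgt (BB k ρ) (↑G : Set Edg) x) ≤ lam := by
  obtain ⟨κ, hκ, hW⟩ := H12S.win_half
  refine ⟨1 - κ ^ 4, by have := pow_pos hκ 4; linarith, fun k ρ hρ => ?_⟩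
  obtain ⟨m, hm⟩ := Int.eq_ofNat_of_zero_le (show 0 ≤ 2 * ρ by omega)
  have hm1 : 1 ≤ m := by omega
  have h1 := (H12S.win_blk (hW (2 * m)) hm1 le_rfl k 0 (LB k ρ)).1
  unfold H12S.PQ at h1
  rw [Pr_not] at h1
  have h2 : Pr (fun _ => (1/2 : ℝ)) (LB k ρ) (fun G : Finset Edg =>
      ∃ x ∈ KB k ρ, RB src tgt (BB k ρ) (↑G : Set Edg) x) ≤
      Pr (fun _ => (1/2 : ℝ)) (LB k ρ) (fun F => H12S.Crs k 0 m (3 * m) ↑F) := by
    apply Pr_mono okhalf
    rintro G _ ⟨x, hx, b, hb, hr⟩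
    unfold KB at hx
    rw [Finset.mem_product, Finset.mem_Icc, Finset.mem_Icc] at hx
    refine ⟨x, b, ?_, ?_, hr⟩
    · unfold inR; omega
    · push_cast
      rcases hb with hb | hb | hb <;> omega
  linarith

theorem ntc : S_NTC := by
  obtain ⟨lam, hlam, hcr⟩ := cross_lt
  have hl : 0 < 1 - lam := by linarith
  refine ⟨2 / (1 - lam) ^ 2, by positivity, fun k r ρ hr hrρ => ?_⟩
  set B : Finset Edg := RE (k - 6 * ρ) (k + 6 * ρ) (-(6 * ρ)) (7 * ρ) with hB
  have hsubW : ∀ j ∈ Finset.Icc 1 ρ, Wd k r ρ j ⊆ B := by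
    intro j hj
    rw [Finset.mem_Icc] at hj
    unfold Wd
    exact RE_subset le_rfl le_rfl (by omega) (by omega)
  have hsubL : LB k ρ ⊆ B := RE_subset le_rfl le_rfl le_rfl (by omega)
  have e1 : ∀ j ∈ Finset.Icc 1 ρ, Q (Wd k r ρ j) (EJ k r ρ j) = Q B (EJ k r ρ j) := by
    intro j hj
    symm
    apply Pr_local (hsubW j hj)
    intro F _
    have e : (↑(F ∩ Wd k r ρ j) ∩ ↑(Wd k r ρ j) : Set Edg) = ↑F ∩ ↑(Wd k r ρ j) := by
      rw [Finset.coe_inter, Set.inter_assoc, Set.inter_self]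
    unfold EJ
    rw [e]
  rw [Finset.sum_congr rfl e1]
  have e2 : ∑ j ∈ Finset.Icc 1 ρ, Q B (EJ k r ρ j) =
      Ex (fun _ => (1/2 : ℝ)) B (fun F => ∑ j ∈ Finset.Icc 1 ρ, ind (EJ k r ρ j F)) := by
    unfold Q Pr
    rw [Ex_sum]
  rw [e2]
  have e3 : Ex (fun _ => (1/2 : ℝ)) B (fun F => ∑ j ∈ Finset.Icc 1 ρ, ind (EJ k r ρ j F)) ≤
      Ex (fun _ => (1/2 : ℝ)) B (fun F =>
        ((H974.NC src tgt (KB k ρ) (BB k ρ) (↑(F ∩ LB k ρ) : Set Edg) : ℕ) : ℝ) ^ 2) := by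
    apply Ex_mono okhalf
    intro F _
    refine (count_le hr hrρ F).trans ?_
    exact_mod_cast Nat.le_self_pow (by norm_num) _
  refine e3.trans ?_
  have e4 : Ex (fun _ => (1/2 : ℝ)) B (fun F =>
        ((H974.NC src tgt (KB k ρ) (BB k ρ) (↑(F ∩ LB k ρ) : Set Edg) : ℕ) : ℝ) ^ 2) =
      Ex (fun _ => (1/2 : ℝ)) (LB k ρ) (fun F =>
        ((H974.NC src tgt (KB k ρ) (BB k ρ) (↑(F ∩ LB k ρ) : Set Edg) : ℕ) : ℝ) ^ 2) := by
    apply Ex_local hsubL
    intro F _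
    rw [Finset.inter_assoc, Finset.inter_self]
  rw [e4]
  have e5 : Ex (fun _ => (1/2 : ℝ)) (LB k ρ) (fun F =>
        ((H974.NC src tgt (KB k ρ) (BB k ρ) (↑(F ∩ LB k ρ) : Set Edg) : ℕ) : ℝ) ^ 2) =
      Ex (fun _ => (1/2 : ℝ)) (LB k ρ) (fun F =>
        ((H974.NC src tgt (KB k ρ) (BB k ρ) (↑F : Set Edg) : ℕ) : ℝ) ^ 2) := by
    apply Ex_congr
    intro F hF
    rw [Finset.inter_eq_left.mpr hF]
  rw [e5]
  exact NC_sq okhalf (LB k ρ) src tgt (KB k ρ) (BB k ρ) hlam (hcr k ρ (by omega))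

end Pool.Agent.Helper77K9.BC
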