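import Pool.Agent.Helper77K9.BC.Lower

/-!
Project BC: the upper bound in the limit.
-/

set_option autoImplicit false

namespace Pool.Agent.Helper77K9.BC

open H974 H973 H934E Finset MeasureTheory TopologicalSpace Filter Topology
open H731C (VE)
open TH868.CT (NX WX Hit kern en)
open scoped ENNReal

theorem US_open (S : Set ℝ) (θ η : ℝ) : IsOpen (US S θ η) := by
  have e : US S θ η = {z : ℂ | |z.im| < η} ∩ ⋃ x ∈ S, {z : ℂ | |z.re - x| < θ} := by
    ext z
    simp only [US, Set.mem_ofPred_eq, Set.mem_inter_iff, Set.mem_iUnion, exists_prop]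
  rw [e]
  have c2 : Continuous (fun z : ℂ => |z.im|) := by fun_prop
  refine (isOpen_lt c2 continuous_const).inter (isOpen_biUnion fun x _ => ?_)
  have c1 : Continuous (fun z : ℂ => |z.re - x|) := by fun_prop
  exact isOpen_lt c1 continuous_const

theorem upper (hD : S_DISC) (hN : S_NR) (hL : S_LIM) : S_UPPER := by
  classical
  obtain ⟨c, C, hc, hC, h⟩ := hD
  refine ⟨2 * C, by positivity, ?_⟩
  intro R δ hδ hlim μ hμ S a hS ha hSa hpos
  have hL0 := R.L0_pos
  have hfin : (μ : Measure (NonemptyCompacts ℂ)) (HS S) ≠ ∞ := measure_ne_top _ _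
  set m : ℝ := ((μ : Measure (NonemptyCompacts ℂ)) (HS S)).toReal with hm
  have hm0 : 0 < m := ENNReal.toReal_pos hpos.ne' hfin
  have hmo : (μ : Measure (NonemptyCompacts ℂ)) (HS S) = ENNReal.ofReal m :=
    (ENNReal.ofReal_toReal hfin).symm
  -- S is not empty
  have hne : ∃ x, x ∈ S := by
    by_contra hcon
    push Not at hcon
    have : HS S = ∅ := by
      ext K
      simp only [HS, Set.mem_ofPred_eq, Set.mem_empty_iff_false, iff_false]
      rintro ⟨y, hy, -⟩
      exact hcon y hy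
    rw [this, measure_empty] at hpos
    exact lt_irrefl _ hpos
  obtain ⟨x0, hx0⟩ := hne
  have haL : a ≤ R.L0 / 100 := (hSa hx0).1.trans (hSa hx0).2
  -- one step
  have step : ∀ n : ℕ, ∃ (d : ℝ) (T : Finset ℤ) (v : ℤ → ℝ), 0 < d ∧ d ≤ 1 / ((n : ℝ) + 1) ∧
      (∀ k ∈ T, 1 ≤ k ∧ 0 ≤ v k ∧ ∃ x ∈ S, |d * k - x| ≤ a / (2 * ((n : ℝ) + 1))) ∧
      ∑ k ∈ T, v k = 1 ∧ en T v ≤ 2 * C / m := by
    intro n
    set θ : ℝ := a / (32 * ((n : ℝ) + 1)) with hθ
    have hn0 : (0 : ℝ) ≤ n := Nat.cast_nonneg n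
    have hθ0 : 0 < θ := by positivity
    have hθa : 32 * θ ≤ a := by
      rw [hθ]
      have : 32 * (a / (32 * ((n : ℝ) + 1))) = a / ((n : ℝ) + 1) := by field_simp
      rw [this]
      exact div_le_self ha.le (by linarith)
    have h16 : 16 * θ = a / (2 * ((n : ℝ) + 1)) := by rw [hθ]; field_simp; norm_num
    obtain ⟨η, hη, hηθ, δ0, hδ0, hNR⟩ := hN R S a (R.L0 / 100) θ (m / 4) hS hSa hθ0 hθa
      (by linarith) (by positivity)
    -- a good mesh
    have hG : IsOpen {K : NonemptyCompacts ℂ | ((K : Set ℂ) ∩ US S θ η).Nonempty} :=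
      NonemptyCompacts.isOpen_inter_nonempty_of_isOpen (US_open S θ η)
    have hfreq : ∃ᶠ i in atTop, 3 * m / 4 < Q (R.edges (δ i)) (fun F => R.trace (hδ i) F ∈
        {K : NonemptyCompacts ℂ | ((K : Set ℂ) ∩ US S θ η).Nonempty}) := by
      by_contra hcon
      rw [Filter.not_frequently] at hcon
      have h1 := R.open_le hδ hμ hG (q := 3 * m / 4) (hcon.mono fun i hi => not_lt.mp hi)
      have h2 : (μ : Measure (NonemptyCompacts ℂ)) (HS S) ≤
          (μ : Measure (NonemptyCompacts ℂ))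
            {K : NonemptyCompacts ℂ | ((K : Set ℂ) ∩ US S θ η).Nonempty} := by
        apply measure_mono
        rintro K ⟨y, hy, hK⟩
        refine ⟨(y : ℂ), hK, ?_, y, hy, ?_⟩
        · simpa using hη
        · simpa using hθ0
      have h3 := h2.trans h1
      rw [hmo] at h3
      have h4 := (ENNReal.ofReal_le_ofReal_iff (by positivity)).mp h3
      linarith
    set d0 : ℝ := min δ0 (min (R.L0 / 100) (1 / ((n : ℝ) + 1))) with hd0
    have hd0p : 0 < d0 := lt_min hδ0 (lt_min (by positivity) (by positivity))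
    obtain ⟨i, hi1, hi2⟩ := (hfreq.and_eventually (hlim.eventually_lt_const hd0p)).exists
    set d : ℝ := δ i with hdi
    have hd : 0 < d := hδ i
    have e1 : d < δ0 := hi2.trans_le (min_le_left _ _)
    have e2 : d < R.L0 / 100 := hi2.trans_le ((min_le_right _ _).trans (min_le_left _ _))
    have e3 : d < 1 / ((n : ℝ) + 1) := hi2.trans_le ((min_le_right _ _).trans (min_le_right _ _))
    set T : Finset ℤ := (Finset.Icc (0 : ℤ) ⌈R.L0 / d⌉).filter (fun k => k ∈ NearS d (16 * θ) S)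
      with hT
    have hnear : ∀ k ∈ NearS d (16 * θ) S, 1 ≤ k ∧ 40 * k ≤ ⌊R.L0 / d⌋ - 3 := by
      rintro k ⟨x, hx, hk⟩
      have hx' := hSa hx
      rw [abs_le] at hk
      have b1 : 0 < d * k := by linarith [hx'.1, hk.1]
      have b2 : (0 : ℝ) < k := by
        by_contra hcon
        push Not at hcon
        have := mul_nonpos_of_nonneg_of_nonpos hd.le hcon
        linarith
      have b3 : d * k ≤ 3 / 200 * R.L0 := by linarith [hx'.2, hk.2]
      have b4 : (k : ℝ) ≤ 3 / 200 * (R.L0 / d) := by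
        rw [← mul_div_assoc, le_div_iff₀ hd]
        linarith
      have b5 : R.L0 / d < (⌊R.L0 / d⌋ : ℝ) + 1 := Int.lt_floor_add_one _
      have b6 : 100 ≤ R.L0 / d := by rw [le_div_iff₀ hd]; linarith
      have b7 : (0 : ℤ) < k := by exact_mod_cast b2
      refine ⟨by omega, ?_⟩
      have : ((40 * k : ℤ) : ℝ) ≤ ((⌊R.L0 / d⌋ - 3 : ℤ) : ℝ) := by push_cast; linarith
      exact_mod_cast this
    have hTmem : ∀ k, k ∈ T ↔ k ∈ NearS d (16 * θ) S := by
      intro k
      rw [hT, Finset.mem_filter, Finset.mem_Icc]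
      refine ⟨fun h => h.2, fun h => ⟨?_, h⟩⟩
      have h1 := hnear k h
      have h2 : ⌊R.L0 / d⌋ ≤ ⌈R.L0 / d⌉ := Int.floor_le_ceil _
      omega
    have hdob := R.dob (δ := d) hd (M := ⌊R.L0 / d⌋ - 3) le_rfl
    have hDT := (h _ _ _ hdob T (fun k hk => hnear k ((hTmem k).mp hk))).2
    -- the probability of touching
    have hq : m / 2 < Q (ES (R.verts d)) (Tch (R.wired d) T) := by
      have q1 := hNR d hd e1
      have q2 : Q (R.edges d) (fun F => R.trace (hδ i) F ∈
          {K : NonemptyCompacts ℂ | ((K : Set ℂ) ∩ US S θ η).Nonempty}) ≤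
          Q (R.edges d) (fun F => ((R.path d F ∩ US S θ η).Nonempty ∧
            ∀ k ∈ NearS d (16 * θ) S, ¬ H934E.W (R.wired d) F (k, 0)) ∨
            Tch (R.wired d) T F) := by
        apply Q_mono
        intro F _ hF
        by_cases hc : Tch (R.wired d) T F
        · exact Or.inr hc
        · left
          refine ⟨hF, fun k hk hW => hc ⟨k, (hTmem k).mpr hk, hW⟩⟩
      have q3 := Pr_or_le okhalf (R.edges d) (fun F => (R.path d F ∩ US S θ η).Nonempty ∧
            ∀ k ∈ NearS d (16 * θ) S, ¬ H934E.W (R.wired d) F (k, 0)) (Tch (R.wired d) T)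
      have q4 := hi1.trans_le (q2.trans q3)
      have q5 : Pr (fun _ => (1/2 : ℝ)) (R.edges d) (Tch (R.wired d) T) =
        Q (ES (R.verts d)) (Tch (R.wired d) T) := rfl
      have q6 : Pr (fun _ => (1/2 : ℝ)) (R.edges d)
          (fun F => (R.path d F ∩ US S θ η).Nonempty ∧
            ∀ k ∈ NearS d (16 * θ) S, ¬ H934E.W (R.wired d) F (k, 0)) ≤ m / 4 := q1
      rw [q5] at q4
      linarith
    obtain ⟨v, hv0, hv1, hv2⟩ := hDT (by linarith)
    refine ⟨d, T, v, hd, e3.le, ?_, hv1, ?_⟩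
    · intro k hk
      obtain ⟨x, hx, hxk⟩ := (hTmem k).mp hk
      exact ⟨(hnear k ((hTmem k).mp hk)).1, hv0 k hk, x, hx, by rw [← h16]; exact hxk⟩
    · have hen := TH868.CT.en_ge (S := T) (fun k hk => (hnear k ((hTmem k).mp hk)).1) hv0
      rw [hv1] at hen
      have hen' : 0 < en T v := by linarith
      have h1 : m / 2 ≤ C / en T v := by linarith
      rw [le_div_iff₀ hen'] at h1
      rw [le_div_iff₀ hm0]
      linarith
  choose d T v hd hdn hT hv1 hen using step
  have hlim0 : Tendsto (fun n : ℕ => 1 / ((n : ℝ) + 1)) atTop (𝓝 0) :=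
    tendsto_one_div_add_atTop_nhds_zero_nat
  have hdlim : Tendsto d atTop (𝓝 0) :=
    squeeze_zero (fun n => (hd n).le) hdn hlim0
  have hεlim : Tendsto (fun n : ℕ => a / (2 * ((n : ℝ) + 1))) atTop (𝓝 0) := by
    have h1 := hlim0.const_mul (a / 2)
    rw [mul_zero] at h1
    refine h1.congr fun n => ?_
    field_simp
  obtain ⟨ν, hν, hν0, hνe⟩ := hL S a (R.L0 / 100) (2 * C / m) ha hS hSa d _ T v hd hdlim hεlim
    hT hv1 hen
  refine ⟨ν, hν, hν0, ?_⟩
  have hinv : (ENNReal.ofReal (2 * C / m))⁻¹ ≤ (energy ν)⁻¹ := ENNReal.inv_le_inv.mpr hνe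
  rw [hmo]
  calc ENNReal.ofReal m = ENNReal.ofReal (2 * C) * (ENNReal.ofReal (2 * C / m))⁻¹ := by
        rw [← ENNReal.ofReal_inv_of_pos (by positivity), ← ENNReal.ofReal_mul (by positivity)]
        congr 1
        field_simp
    _ ≤ ENNReal.ofReal (2 * C) * (energy ν)⁻¹ := by gcongr

end Pool.Agent.Helper77K9.BC
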