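import Pool.Agent.Helper77K9.BC.Ext
import Pool.Agent.Helper77K9.BC.Nr
import Pool.Agent.Helper77K9.BC.Nta
import Pool.Agent.Helper77K9.BC.Ntc
import Pool.Agent.Helper77K9.BC.Lw
import Pool.Agent.Helper77K9.BC.Disc
import Pool.Agent.Helper77K9.BC.Lower
import Pool.Agent.Helper77K9.BC.Upper
import Pool.Agent.Helper54K9.BC.Shf
import Pool.Agent.Helper54K9.BC.Box
import Pool.Agent.Helper46K9.BC.DlC
import Pool.Agent.Helper30K9.BC.Du

/-!
Project BC: the theorem.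
-/

set_option autoImplicit false

namespace Pool.Agent.Helper77K9.BC

open H934E Finset MeasureTheory TopologicalSpace Filter Topology
open scoped ENNReal NNReal

theorem kerR_le {b s : ℝ} (hs : 0 < s) {x y : ℝ} (hx : 0 < x) (hy : 0 < y) (hxb : x ≤ b)
    (hyb : y ≤ b) : kerR x y ≤
      (ENNReal.ofReal b) ^ (1 / 3 + s) * (edist x y) ^ (-(1 / 3 + s) : ℝ) := by
  have hd : edist x y = ENNReal.ofReal |x - y| := by rw [edist_dist, Real.dist_eq]
  have h1 : 1 ≤ ENNReal.ofReal (max x y) / ENNReal.ofReal |x - y| := by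
    have hm : 0 < max x y := lt_max_of_lt_left hx
    rw [ENNReal.le_div_iff_mul_le (Or.inr (ENNReal.ofReal_pos.mpr hm).ne')
      (Or.inr ENNReal.ofReal_ne_top), one_mul]
    apply ENNReal.ofReal_le_ofReal
    rw [abs_sub_le_iff]
    constructor
    · have := le_max_left x y; linarith
    · have := le_max_right x y; linarith
  unfold kerR
  calc (ENNReal.ofReal (max x y) / ENNReal.ofReal |x - y|) ^ ((1 : ℝ) / 3)
      ≤ (ENNReal.ofReal (max x y) / ENNReal.ofReal |x - y|) ^ (1 / 3 + s) :=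
        ENNReal.rpow_le_rpow_of_exponent_le h1 (by linarith)
    _ ≤ (ENNReal.ofReal b / ENNReal.ofReal |x - y|) ^ (1 / 3 + s) := by
        apply ENNReal.rpow_le_rpow _ (by linarith)
        gcongr
        exact max_le hxb hyb
    _ = _ := by
        rw [ENNReal.div_rpow_of_nonneg _ _ (by linarith), hd, ENNReal.rpow_neg, div_eq_mul_inv]

theorem energy_ne_top {a b s : ℝ} (hs : 0 < s) (ha : 0 < a) {S : Set ℝ} (hS : S ⊆ Set.Icc a b)
    (ν : Measure ℝ) (h0 : ν Sᶜ = 0)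
    (h : ∫⁻ x, ∫⁻ y, (edist x y) ^ (-(1 / 3 + s) : ℝ) ∂ν ∂ν ≠ ∞) : energy ν ≠ ∞ := by
  have hae : ∀ᵐ x ∂ν, a ≤ x ∧ x ≤ b := by
    rw [ae_iff]
    refine measure_mono_null ?_ h0
    intro x hx hxS
    exact hx (hS hxS)
  have key : energy ν ≤ ∫⁻ x, ∫⁻ y, (ENNReal.ofReal b) ^ (1 / 3 + s) *
      (edist x y) ^ (-(1 / 3 + s) : ℝ) ∂ν ∂ν := by
    unfold energy
    apply lintegral_mono_ae
    filter_upwards [hae] with x hx
    apply lintegral_mono_ae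
    filter_upwards [hae] with y hy
    exact kerR_le hs (ha.trans_le hx.1) (ha.trans_le hy.1) hx.2 hy.2
  have hb : (ENNReal.ofReal b) ^ (1 / 3 + s) ≠ ∞ :=
    ENNReal.rpow_ne_top_of_nonneg (by linarith) ENNReal.ofReal_ne_top
  refine ne_top_of_le_ne_top ?_ key
  simp_rw [lintegral_const_mul' _ _ hb]
  exact ENNReal.mul_ne_top hb h

theorem dl2 (h : S_DL) : S_DL2 := by
  obtain ⟨c, hc, h⟩ := h
  intro R δ hδ hlim μ hμ S a s hS ha hSa hs ν hν hν0 he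
  obtain ⟨G, hGm, hG1, hG2⟩ := h R δ hδ hlim μ hμ S a s hS ha hSa hs ν hν hν0 he
  refine ⟨G, hGm, lt_of_lt_of_le ?_ hG1, hG2⟩
  exact ENNReal.mul_pos (ENNReal.ofReal_pos.mpr hc).ne'
    (ENNReal.inv_ne_zero.mpr (energy_ne_top hs ha hSa ν hν0 he))

theorem disc_all : S_DISC :=
  disc Pool.Agent.Helper54K9.BC.box Pool.Agent.Helper54K9.BC.shf lw

theorem lower_all : S_LOWER := lower disc_all Pool.Agent.Helper92K9.BC.push

theorem upper_all : S_UPPER :=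
  upper disc_all (nr (nt nta ntb ntc)) Pool.Agent.Helper92K9.BC.lim

/-- The theorem. -/
theorem main : ∃ c C : ℝ, 0 < c ∧ 0 < C ∧
    ∀ (R : Rect) (δ : ℕ → ℝ) (hδ : ∀ i, 0 < δ i), Tendsto δ atTop (𝓝 0) →
    ∀ μ : ProbabilityMeasure (NonemptyCompacts ℂ),
      Tendsto (fun i => R.law (hδ i)) atTop (𝓝 μ) →
      (∀ S : Set ℝ, S ⊆ Set.Ioc 0 (R.L0 / 100) →
        ENNReal.ofReal c * capR S ≤ (μ : Measure (NonemptyCompacts ℂ)) (HS S)) ∧
      (∀ S : Set ℝ, IsSigmaCompact S → S ⊆ Set.Ioc 0 (R.L0 / 100) →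
        (μ : Measure (NonemptyCompacts ℂ)) (HS S) ≤ ENNReal.ofReal C * capR S) ∧
      (∀ S : Set ℝ, S ⊆ Set.Ioc 0 (R.L0 / 16) →
        ∀ᵐ K ∂(μ : Measure (NonemptyCompacts ℂ)), dimH (touch K ∩ S) ≤ dimH S - 1 / 3 ∧
          (μH[(1 / 3 : ℝ)] S = 0 → touch K ∩ S = ∅)) ∧
      (∀ S : Set ℝ, IsSigmaCompact S → S ⊆ Set.Ioc 0 (R.L0 / 100) →
        essSup (fun K : NonemptyCompacts ℂ => dimH (touch K ∩ S))
          (μ : Measure (NonemptyCompacts ℂ)) = dimH S - 1 / 3) := by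
  obtain ⟨c, C, hc, hC, h⟩ := two_sided lower_all upper_all
  refine ⟨c, C, hc, hC, fun R δ hδ hlim μ hμ => ⟨fun S hS => ?_, fun S hS hSb => ?_,
    fun S hS => ?_, fun S hS hSb => ?_⟩⟩
  · exact low_all _ _ ENNReal.ofReal_ne_top (R.L0 / 100)
      (fun S hS hSb => (h R δ hδ hlim μ hμ S hS hSb).1) S hS
  · exact up_sigma _ _ (R.L0 / 100) (fun S hS hSb => (h R δ hδ hlim μ hμ S hS hSb).2) S hS hSb
  · exact dim_upper Pool.Agent.Helper30K9.BC.du R δ hδ hlim μ hμ S hS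
  · exact ess_dim Pool.Agent.Helper30K9.BC.du (dl2 Pool.Agent.Helper46K9.BC.dl) R δ hδ hlim μ hμ
      S hS hSb

end Pool.Agent.Helper77K9.BC
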