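import Pool.Agent.TH868.CT.Cap
import Pool.Agent.H934R2.Expl.Whole

/-!
Project BC (MP_216314_pr): which fixed sets of boundary points are hit by the scaling limits of the
interface (q = 1, rectangle with Dobrushin boundary conditions).  Statements of the steps.
-/

set_option autoImplicit false

namespace Pool.Agent.Helper77K9.BC

open H974 H973 H934E Finset MeasureTheory TopologicalSpace Filter Topology
open H731C (VE)
open TH868.CT (NX WX Hit kern en)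
open scoped ENNReal

/-! ### Discrete part -/

/-- Some point of `S` on the bottom row belongs to the wired cluster. -/
def Tch (A : Set Edg) (S : Finset ℤ) (F : Finset Edg) : Prop := ∃ x ∈ S, H934E.W A F (x, 0)

/-- [BOX] From a Dobrushin domain to a half-box with the negative half-axis wired (half-circuit
`HC 0 r (3 r)`, `hc_meet`, `pr_HC`, `hmul`; `C = 1 / kp`). -/
def S_BOX : Prop := ∃ C : ℝ, 0 < C ∧ ∀ (M : ℤ) (T : Finset Vtx) (A : Set Edg), Dob M T A →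
  ∀ (S : Finset ℤ) (r : ℤ), 1 ≤ r → 3 * r ≤ M → (∀ x ∈ S, 1 ≤ x ∧ x ≤ r) →
    Q (ES T) (Tch A S) ≤ C * Q (RE (-(3 * r)) (3 * r) 0 (3 * r)) (Hit S)

/-- [SHF] From the free bottom row to the bottom row without horizontal edges: a path from `(x, 0)`
to `(z, 0)`, `z ≤ 0`, moved up by one, and the two vertical edges below its ends (decompose
according to the smallest `x`, then the largest `z`; they are independent of the rows above). -/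
def S_SHF : Prop := ∀ (S : Finset ℤ) (n N : ℤ), 1 ≤ n → n < N → (∀ x ∈ S, 1 ≤ x ∧ x ≤ n) →
    Q (RE (-n) n 0 n) (Hit S) ≤ 4 * Q (VE (-N) N 0 N) (Hit S)

/-- [LW] The easy comparison. -/
def S_LW : Prop := ∀ (M : ℤ) (T : Finset Vtx) (A : Set Edg), 1 ≤ M → Dob M T A →
  ∀ S : Finset ℤ, (∀ x ∈ S, 1 ≤ x ∧ x ≤ M) → Q (VE (-M) M 0 M) (Hit S) ≤ Q (ES T) (Tch A S)

/-- [DISC] The capacity theorem in Dobrushin domains (from BOX, SHF, LW and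
`TH868.CT.cap_low`, `TH868.CT.cap_up`). -/
def S_DISC : Prop := ∃ c C : ℝ, 0 < c ∧ 0 < C ∧ ∀ (M : ℤ) (T : Finset Vtx) (A : Set Edg),
  Dob M T A → ∀ S : Finset ℤ, (∀ x ∈ S, 1 ≤ x ∧ 40 * x ≤ M) →
    (∀ v : ℤ → ℝ, (∀ x ∈ S, 0 ≤ v x) → ∑ x ∈ S, v x = 1 → c / en S v ≤ Q (ES T) (Tch A S)) ∧
    (0 < Q (ES T) (Tch A S) → ∃ v : ℤ → ℝ, (∀ x ∈ S, 0 ≤ v x) ∧ ∑ x ∈ S, v x = 1 ∧
      Q (ES T) (Tch A S) ≤ C / en S v)

/-! ### Near-touches -/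

/-- The wired cluster comes within distance `r` of the bottom row near `k`, but does not touch
the bottom row near `k`. -/
def Near (A : Set Edg) (k ρ r : ℤ) (F : Finset Edg) : Prop :=
  (∃ u : Vtx, inR (k - ρ) (k + ρ) 0 r u ∧ H934E.W A F u) ∧
    ∀ l : ℤ, k - 6 * ρ ≤ l → l ≤ k + 6 * ρ → ¬ H934E.W A F (l, 0)

/-- The tilted height. -/
def ph (k r ρ : ℤ) (v : Vtx) : ℤ := ρ * v.2 + r * |v.1 - k|

/-- The window of level `j`. -/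
noncomputable def Wd (k r ρ j : ℤ) : Finset Edg :=
  RE (k - 6 * ρ) (k + 6 * ρ) (j - 6 * r - 1) (j + 6 * ρ)

/-- A cluster of the window of level `j` which reaches its rim and whose lowest point (for the
tilted height) is at level `j`. -/
def EJ (k r ρ j : ℤ) (F : Finset Edg) : Prop :=
  ∃ v : Vtx, ρ * j ≤ ph k r ρ v ∧ ph k r ρ v < ρ * (j + 1) ∧ |v.1 - k| ≤ 2 * ρ ∧
    (∃ z : Vtx, (z.1 = k - 6 * ρ ∨ z.1 = k + 6 * ρ ∨ z.2 = j + 6 * ρ) ∧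
      Reach (↑F ∩ ↑(Wd k r ρ j)) v z) ∧
    ∀ w : Vtx, Reach (↑F ∩ ↑(Wd k r ρ j)) v w → ph k r ρ v ≤ ph k r ρ w

/-- [NTA] Minimise the tilted height over the vertices of the wired cluster with
`|w.1 - k| ≤ 6 ρ`, `0 ≤ w.2 ≤ 8 ρ`: the minimum `λ` satisfies `ρ ≤ λ ≤ 2 r ρ`, and `EJ` holds for
`j = λ / ρ`.  (Probabilities: the cluster has no vertex in row `0`, so the edges below row `0`
do not matter: intersect `EJ` with this event, use locality, then drop it.) -/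
def S_NTA : Prop := ∀ (T : Finset Vtx) (A : Set Edg) (k r ρ : ℤ), 1 ≤ r → r ≤ ρ → 8 * ρ ≤ k →
  Free k (8 * ρ) T A →
    Q (ES T) (Near A k ρ r) ≤ ∑ j ∈ Finset.Icc 1 (2 * r), Q (Wd k r ρ j) (EJ k r ρ j)

/-- [NTB] Translation. -/
def S_NTB : Prop := ∀ k r ρ j : ℤ, Q (Wd k r ρ j) (EJ k r ρ j) = Q (Wd k r ρ 1) (EJ k r ρ 1)

/-- [NTC] The number of levels is at most the number of clusters of the box
`[k - 6 ρ, k + 6 ρ] × [-6 ρ, 6 ρ]` which meet the box of radius `2 ρ` around `(k, 0)` and reach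
distance `6 ρ` (different levels give different clusters); `NC_sq`, `H12S.win_blk`,
`H12S.win_half`. -/
def S_NTC : Prop := ∃ C : ℝ, 0 < C ∧ ∀ k r ρ : ℤ, 1 ≤ r → r ≤ ρ →
    ∑ j ∈ Finset.Icc 1 ρ, Q (Wd k r ρ j) (EJ k r ρ j) ≤ C

/-- [NT] from NTA, NTB, NTC. -/
def S_NT : Prop := ∃ C : ℝ, 0 < C ∧ ∀ (T : Finset Vtx) (A : Set Edg) (k r ρ : ℤ), 1 ≤ r →
  r ≤ ρ → 8 * ρ ≤ k → Free k (8 * ρ) T A → Q (ES T) (Near A k ρ r) ≤ C * ((r : ℝ) / ρ)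

/-! ### Continuum part -/

/-- The kernel of chordal SLE₆ at boundary points. -/
noncomputable def kerR (x y : ℝ) : ℝ≥0∞ :=
  (ENNReal.ofReal (max x y) / ENNReal.ofReal |x - y|) ^ ((1 : ℝ) / 3)

/-- The energy of a measure. -/
noncomputable def energy (ν : Measure ℝ) : ℝ≥0∞ := ∫⁻ x, ∫⁻ y, kerR x y ∂ν ∂ν

/-- The capacity of a set. -/
noncomputable def capR (S : Set ℝ) : ℝ≥0∞ :=
  ⨆ (ν : Measure ℝ) (_ : IsProbabilityMeasure ν) (_ : ν Sᶜ = 0), (energy ν)⁻¹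

/-- `K` meets `S`. -/
def HS (S : Set ℝ) : Set (NonemptyCompacts ℂ) := {K | ∃ y ∈ S, (y : ℂ) ∈ K}

/-- [PUSH] A measure on the real line moved to the lattice. -/
def S_PUSH : Prop := ∀ (S : Set ℝ) (a b δ : ℝ), 0 < δ → δ ≤ a → S ⊆ Set.Icc a b →
  ∀ ν : Measure ℝ, IsProbabilityMeasure ν → ν Sᶜ = 0 → energy ν ≠ ∞ →
    ∃ (T : Finset ℤ) (v : ℤ → ℝ), (∀ k ∈ T, ∃ x ∈ S, k = ⌊x / δ⌋) ∧ (∀ k ∈ T, 0 ≤ v k) ∧
      ∑ k ∈ T, v k = 1 ∧ en T v ≤ (energy ν).toReal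

/-- [LIM] Compactness: discrete measures with bounded energies. -/
def S_LIM : Prop := ∀ (S : Set ℝ) (a b E : ℝ), 0 < a → IsCompact S → S ⊆ Set.Icc a b →
  ∀ (δ ε : ℕ → ℝ) (T : ℕ → Finset ℤ) (v : ℕ → ℤ → ℝ), (∀ n, 0 < δ n) →
    Tendsto δ atTop (𝓝 0) → Tendsto ε atTop (𝓝 0) →
    (∀ n, ∀ k ∈ T n, 1 ≤ k ∧ 0 ≤ v n k ∧ ∃ x ∈ S, |δ n * k - x| ≤ ε n) →
    (∀ n, ∑ k ∈ T n, v n k = 1) → (∀ n, en (T n) (v n) ≤ E) →
    ∃ ν : Measure ℝ, IsProbabilityMeasure ν ∧ ν Sᶜ = 0 ∧ energy ν ≤ ENNReal.ofReal E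

/-- The lattice points close to `S`. -/
def NearS (δ t : ℝ) (S : Set ℝ) : Set ℤ := {k | ∃ x ∈ S, |δ * k - x| ≤ t}

/-- Flat open neighbourhoods of `S`. -/
def US (S : Set ℝ) (θ η : ℝ) : Set ℂ := {z | |z.im| < η ∧ ∃ x ∈ S, |z.re - x| < θ}

/-- [NR] Near-touches in the rectangle have small probability, uniformly in the mesh. -/
def S_NR : Prop := ∀ (R : Rect) (S : Set ℝ) (a b θ e : ℝ), IsCompact S → S ⊆ Set.Icc a b →
  0 < θ → 32 * θ ≤ a → 8 * b ≤ R.L0 → 0 < e → ∃ η : ℝ, 0 < η ∧ η ≤ θ ∧ ∃ δ0 : ℝ, 0 < δ0 ∧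
    ∀ (δ : ℝ), 0 < δ → δ < δ0 →
      Q (R.edges δ) (fun F => (R.path δ F ∩ US S θ η).Nonempty ∧
        ∀ k ∈ NearS δ (16 * θ) S, ¬ H934E.W (R.wired δ) F (k, 0)) ≤ e

/-- [LOWER] Lower bound in the limit. -/
def S_LOWER : Prop := ∃ c : ℝ, 0 < c ∧ ∀ (R : Rect) (δ : ℕ → ℝ) (hδ : ∀ i, 0 < δ i),
  Tendsto δ atTop (𝓝 0) → ∀ μ : ProbabilityMeasure (NonemptyCompacts ℂ),
    Tendsto (fun i => R.law (hδ i)) atTop (𝓝 μ) → ∀ (S : Set ℝ) (a : ℝ), IsCompact S → 0 < a →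
    S ⊆ Set.Icc a (R.L0 / 100) → ∀ ν : Measure ℝ, IsProbabilityMeasure ν → ν Sᶜ = 0 →
    energy ν ≠ ∞ →
      ENNReal.ofReal c * (energy ν)⁻¹ ≤ (μ : Measure (NonemptyCompacts ℂ)) (HS S)

/-- [UPPER] Upper bound in the limit. -/
def S_UPPER : Prop := ∃ C : ℝ, 0 < C ∧ ∀ (R : Rect) (δ : ℕ → ℝ) (hδ : ∀ i, 0 < δ i),
  Tendsto δ atTop (𝓝 0) → ∀ μ : ProbabilityMeasure (NonemptyCompacts ℂ),
    Tendsto (fun i => R.law (hδ i)) atTop (𝓝 μ) → ∀ (S : Set ℝ) (a : ℝ), IsCompact S → 0 < a →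
    S ⊆ Set.Icc a (R.L0 / 100) → 0 < (μ : Measure (NonemptyCompacts ℂ)) (HS S) →
    ∃ ν : Measure ℝ, IsProbabilityMeasure ν ∧ ν Sᶜ = 0 ∧
      (μ : Measure (NonemptyCompacts ℂ)) (HS S) ≤ ENNReal.ofReal C * (energy ν)⁻¹

/-- [DU] Dimension of the set of hit points, upper bound, for arbitrary sets (first and second
moment are not needed: cover `S`, use `Rect.HI_bounds`). -/
def S_DU : Prop := ∀ (R : Rect) (δ : ℕ → ℝ) (hδ : ∀ i, 0 < δ i),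
  Tendsto δ atTop (𝓝 0) → ∀ μ : ProbabilityMeasure (NonemptyCompacts ℂ),
    Tendsto (fun i => R.law (hδ i)) atTop (𝓝 μ) → ∀ (S : Set ℝ) (s : ℝ), 1 / 3 ≤ s →
    S ⊆ Set.Ioc 0 (R.L0 / 16) → μH[s] S = 0 →
    ∀ᵐ K ∂(μ : Measure (NonemptyCompacts ℂ)), μH[s - 1 / 3] (touch K ∩ S) = 0

/-- [DL] Dimension of the set of hit points, lower bound. -/
def S_DL : Prop := ∃ c : ℝ, 0 < c ∧ ∀ (R : Rect) (δ : ℕ → ℝ) (hδ : ∀ i, 0 < δ i),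
  Tendsto δ atTop (𝓝 0) → ∀ μ : ProbabilityMeasure (NonemptyCompacts ℂ),
    Tendsto (fun i => R.law (hδ i)) atTop (𝓝 μ) → ∀ (S : Set ℝ) (a s : ℝ), IsCompact S → 0 < a →
    S ⊆ Set.Icc a (R.L0 / 100) → 0 < s → ∀ ν : Measure ℝ, IsProbabilityMeasure ν → ν Sᶜ = 0 →
    ∫⁻ x, ∫⁻ y, (edist x y) ^ (-(1 / 3 + s) : ℝ) ∂ν ∂ν ≠ ∞ →
      ∃ G : Set (NonemptyCompacts ℂ), MeasurableSet G ∧
        ENNReal.ofReal c * (energy ν)⁻¹ ≤ (μ : Measure (NonemptyCompacts ℂ)) G ∧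
        ∀ K ∈ G, ENNReal.ofReal s ≤ dimH (touch K ∩ S)

end Pool.Agent.Helper77K9.BC
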